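import Mathlib
import Pool.Agent.H.MP_96e181_an.Digits

set_option autoImplicit false

namespace Pool.Agent.H.MP_96e181_an.helper43

open MeasureTheory Filter Topology Set
open scoped ENNReal NNReal

open Pool.Agent.H.MP_96e181_an (rep dig dig_spec dig_lt measurable_dig coe_rep)

/-- The norm of the class of a real number is at most its absolute value. -/
theorem norm_coe_le (r : ℝ) : ‖(r : UnitAddCircle)‖ ≤ |r| := by
  rw [UnitAddCircle.norm_eq]
  simpa using round_le r 0

theorem norm_lt_of_dig_eq {D : ℕ} (hD : 0 < D) {x y : UnitAddCircle} (h : dig D x = dig D y) :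
    ‖x - y‖ < 1 / (D : ℝ) := by
  have hx := dig_spec hD x
  have hy := dig_spec hD y
  rw [h] at hx
  have e : x - y = ((rep x - rep y : ℝ) : UnitAddCircle) := by
    rw [AddCircle.coe_sub, coe_rep, coe_rep]
  rw [e]
  refine (norm_coe_le _).trans_lt ?_
  rw [abs_lt]
  constructor <;> linarith [hx.1, hx.2, hy.1, hy.2]

/-- An invariant measure is preserved by all the powers. -/
theorem mp_pow {μ : Measure UnitAddCircle} {q : ℕ}
    (hq : MeasurePreserving (fun x : UnitAddCircle => q • x) μ μ) (j : ℕ) :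
    MeasurePreserving (fun x : UnitAddCircle => q ^ j • x) μ μ := by
  induction j with
  | zero =>
    simp only [pow_zero, one_smul]
    exact MeasurePreserving.id μ
  | succ j ih =>
    have := ih.comp hq
    convert! this using 1
    funext x
    simp only [Function.comp_apply]
    rw [pow_succ, mul_smul]

/-- Balls of uniformly positive mass and radii tending to zero force an atom. -/
theorem atom_of_balls {μ : Measure UnitAddCircle} [IsFiniteMeasure μ] [NullSingletonClass μ] {δ : ℝ≥0∞}
    (hδ : 0 < δ) {r : ℕ → ℝ} (hr : Tendsto r atTop (𝓝 0))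
    (h : ∀ᶠ n in atTop, ∃ w : UnitAddCircle, δ ≤ μ (Metric.ball w (r n))) : False := by
  obtain ⟨n0, hn0⟩ := eventually_atTop.1 h
  choose! w hw using hn0
  obtain ⟨x, -, φ, hφ, hx⟩ := isCompact_univ.tendsto_subseq (x := fun n => w (n + n0)) (fun _ => mem_univ _)
  -- every closed ball around `x` has mass at least `δ`
  have hball : ∀ ε : ℝ, 0 < ε → δ ≤ μ (Metric.closedBall x ε) := by
    intro ε hε
    have h1 : ∀ᶠ n in atTop, dist (w (φ n + n0)) x < ε / 2 := by
      have := Metric.tendsto_nhds.1 hx (ε / 2) (by positivity)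
      simpa using this
    have h2 : ∀ᶠ n in atTop, r (φ n + n0) < ε / 2 := by
      have h3 : Tendsto (fun n => r (φ n + n0)) atTop (𝓝 0) :=
        hr.comp (tendsto_atTop_mono (fun n => Nat.le_add_right (φ n) n0) hφ.tendsto_atTop)
      exact (h3.eventually (gt_mem_nhds (by positivity)))
    obtain ⟨n, hn1, hn2⟩ := (h1.and h2).exists
    refine (hw (φ n + n0) (by omega)).trans (measure_mono ?_)
    intro y hy
    rw [Metric.mem_ball] at hy
    rw [Metric.mem_closedBall]
    have := dist_triangle y (w (φ n + n0)) x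
    linarith
  have hlim : Tendsto (fun n : ℕ => μ (Metric.closedBall x (1 / ((n : ℝ) + 1)))) atTop
      (𝓝 (μ (⋂ n : ℕ, Metric.closedBall x (1 / ((n : ℝ) + 1))))) := by
    apply tendsto_measure_iInter_atTop
    · intro n; exact Metric.isClosed_closedBall.measurableSet.nullMeasurableSet
    · intro m n hmn
      apply Metric.closedBall_subset_closedBall
      have : (m : ℝ) ≤ n := by exact_mod_cast hmn
      apply one_div_le_one_div_of_le <;> [positivity; linarith]
    · exact ⟨0, measure_ne_top _ _⟩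
  have hInter : (⋂ n : ℕ, Metric.closedBall x (1 / ((n : ℝ) + 1))) = {x} := by
    ext y
    simp only [mem_iInter, Metric.mem_closedBall, mem_singleton_iff]
    constructor
    · intro hy
      have : dist y x ≤ 0 := by
        refine le_of_tendsto_of_tendsto' tendsto_const_nhds tendsto_one_div_add_atTop_nhds_zero_nat hy
      exact dist_le_zero.1 this
    · rintro rfl n
      rw [dist_self]; positivity
  rw [hInter, measure_singleton] at hlim
  have : δ ≤ 0 := by
    refine ge_of_tendsto' hlim fun n => hball _ (by positivity)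
  exact absurd this (not_le.2 hδ)

/-- **No branching forces an atom.**  -/
theorem no_branch {p : ℕ} (hp : 2 ≤ p) {μ : Measure UnitAddCircle} [IsProbabilityMeasure μ]
    [NullSingletonClass μ] (hμ : MeasurePreserving (fun x : UnitAddCircle => p • x) μ μ)
    (κ : ℕ → ℕ) (B : ℕ → Set UnitAddCircle) (K0 : ℕ) (hκ : ∀ K, K0 ≤ K → 1 ≤ κ K)
    (hB : ∀ K, MeasurableSet (B K))
    (hstar : ∀ K, K0 ≤ K → ∀ u v : UnitAddCircle, u ∉ B K → v ∉ B K →
      ‖p ^ (κ K) • (u - v)‖ < 1 / (p : ℝ) ^ K → ‖p ^ (κ K - 1) • (u - v)‖ < 1 / (p : ℝ) ^ (K + 1))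
    (hsum : ∀ n, ∑ K ∈ Finset.Ico K0 n, μ (B K) ≤ 1 / 2) : False := by
  have hp0 : (0 : ℝ) < p := by positivity
  set D : ℕ := p ^ K0 with hD
  have hDpos : 0 < D := by positivity
  have hr : Tendsto (fun n : ℕ => 1 / (p : ℝ) ^ n) atTop (𝓝 0) := by
    have := tendsto_pow_atTop_nhds_zero_of_lt_one (r := 1 / (p : ℝ)) (by positivity)
      (by rw [div_lt_one hp0]; exact_mod_cast hp)
    simpa [one_div, inv_pow] using this
  refine atom_of_balls (μ := μ) (δ := 1 / 2 / D) ?_ hr ?_
  · exact ENNReal.div_pos (by simp) (ENNReal.natCast_ne_top _)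
  filter_upwards [eventually_ge_atTop K0] with n hn
  set N : ℕ := n + (Finset.Ico K0 n).sup κ with hN
  have hκN : ∀ K ∈ Finset.Ico K0 n, κ K + K < N := by
    intro K hK
    have h1 : κ K ≤ (Finset.Ico K0 n).sup κ := Finset.le_sup hK
    have h2 := (Finset.mem_Ico.1 hK).2
    omega
  -- the good set
  set G : Set UnitAddCircle := {u | ∀ K ∈ Finset.Ico K0 n, p ^ (N - K - κ K) • u ∉ B K} with hG
  have hGc : μ Gᶜ ≤ 1 / 2 := by
    have h1 : Gᶜ ⊆ ⋃ K ∈ Finset.Ico K0 n, (fun u : UnitAddCircle => p ^ (N - K - κ K) • u) ⁻¹' B K := by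
      intro u hu
      simp only [hG, mem_compl_iff, mem_ofPred_eq, not_forall, not_not] at hu
      obtain ⟨K, hK, hu⟩ := hu
      simp only [mem_iUnion, mem_preimage]
      exact ⟨K, hK, hu⟩
    refine (measure_mono h1).trans ((measure_biUnion_finset_le _ _).trans ?_)
    refine le_trans (le_of_eq ?_) (hsum n)
    refine Finset.sum_congr rfl fun K _ => ?_
    exact (mp_pow hμ _).measure_preimage (hB K).nullMeasurableSet
  have hG1 : 1 / 2 ≤ μ G := by
    have h1 : (1 : ℝ≥0∞) ≤ μ G + μ Gᶜ := by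
      rw [← measure_univ (μ := μ), ← union_compl_self G]
      exact measure_union_le _ _
    by_contra hcon
    rw [not_le] at hcon
    have h2 : μ G + μ Gᶜ < 1 / 2 + 1 / 2 := ENNReal.add_lt_add_of_lt_of_le
      (ne_top_of_le_ne_top (by simp) hGc) hcon hGc
    rw [ENNReal.add_halves] at h2
    exact absurd h1 (not_le.2 h2)
  -- the main induction
  have hind : ∀ u ∈ G, ∀ v ∈ G, ‖p ^ (N - K0) • (u - v)‖ < 1 / (p : ℝ) ^ K0 →
      ∀ K, K0 ≤ K → K ≤ n → ‖p ^ (N - K) • (u - v)‖ < 1 / (p : ℝ) ^ K := by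
    intro u hu v hv h0 K hK
    induction K, hK using Nat.le_induction with
    | base => intro _; exact h0
    | succ K hK ih =>
      intro hKn
      have hKm : K ∈ Finset.Ico K0 n := Finset.mem_Ico.2 ⟨hK, by omega⟩
      have h1 := ih (by omega)
      have h2 := hκN K hKm
      have h3 := hκ K hK
      have h4 := hstar K hK (p ^ (N - K - κ K) • u) (p ^ (N - K - κ K) • v) (hu K hKm) (hv K hKm)
      rw [← smul_sub, ← mul_smul, ← pow_add, ← mul_smul, ← pow_add] at h4
      have e1 : κ K + (N - K - κ K) = N - K := by omega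
      have e2 : κ K - 1 + (N - K - κ K) = N - (K + 1) := by omega
      rw [e1, e2] at h4
      exact h4 h1
  -- pigeonhole on the cells
  set cell : ℕ → Set UnitAddCircle := fun a => {u | u ∈ G ∧ dig D (p ^ (N - K0) • u) = a} with hcell
  have hcover : G ⊆ ⋃ a ∈ Finset.range D, cell a := by
    intro u hu
    simp only [mem_iUnion]
    exact ⟨dig D (p ^ (N - K0) • u), Finset.mem_range.2 (dig_lt hDpos _), hu, rfl⟩
  have hex : ∃ a ∈ Finset.range D, (1 / 2 / D : ℝ≥0∞) ≤ μ (cell a) := by
    by_contra hcon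
    push Not at hcon
    have h1 : μ G ≤ ∑ a ∈ Finset.range D, μ (cell a) :=
      (measure_mono hcover).trans (measure_biUnion_finset_le _ _)
    have h2 : ∑ a ∈ Finset.range D, μ (cell a) < ∑ a ∈ Finset.range D, (1 / 2 / D : ℝ≥0∞) :=
      ENNReal.sum_lt_sum_of_nonempty (Finset.nonempty_range_iff.2 hDpos.ne') hcon
    rw [Finset.sum_const, Finset.card_range, nsmul_eq_mul,
      ENNReal.mul_div_cancel (by exact_mod_cast hDpos.ne') (ENNReal.natCast_ne_top _)] at h2
    exact absurd (hG1.trans h1) (not_le.2 h2)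
  obtain ⟨a, -, ha⟩ := hex
  have hne : (cell a).Nonempty := by
    rw [nonempty_iff_ne_empty]
    intro h0
    rw [h0, measure_empty] at ha
    have : (0 : ℝ≥0∞) < 1 / 2 / D := ENNReal.div_pos (by simp) (ENNReal.natCast_ne_top _)
    exact absurd ha (not_le.2 this)
  obtain ⟨w, hw, hwa⟩ := hne
  refine ⟨p ^ (N - n) • w, ha.trans ?_⟩
  have hsub : cell a ⊆ (fun u : UnitAddCircle => p ^ (N - n) • u) ⁻¹'
      Metric.ball (p ^ (N - n) • w) (1 / (p : ℝ) ^ n) := by
    rintro u ⟨hu, hua⟩
    rw [mem_preimage, Metric.mem_ball, dist_eq_norm, ← smul_sub]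
    refine hind u hu w hw ?_ n hn le_rfl
    rw [smul_sub]
    have := norm_lt_of_dig_eq hDpos (hua.trans hwa.symm)
    rwa [hD, Nat.cast_pow] at this
  refine (measure_mono hsub).trans (le_of_eq ?_)
  exact (mp_pow hμ _).measure_preimage Metric.isOpen_ball.measurableSet.nullMeasurableSet

end Pool.Agent.H.MP_96e181_an.helper43
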