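import Mathlib
import Pool.Agent.H.MP_96e181_an.Order
import Pool.Agent.H.MP_96e181_an.helper43.Branch

set_option autoImplicit false

namespace Pool.Agent.H.MP_96e181_an.helper43

open MeasureTheory Filter Topology Set
open scoped ENNReal NNReal

open Pool.Agent.H.MP_96e181_an (rep dig dig_spec dig_lt measurable_dig coe_rep order_bound)

theorem nsmul_coe (k : ℕ) (r : ℝ) : k • (r : UnitAddCircle) = (((k : ℝ) * r : ℝ) : UnitAddCircle) := by
  rw [← nsmul_eq_mul]; rfl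

/-- A point `D` with `p^κ D` small is a `p^κ`-torsion point plus a small real number. -/
theorem exists_torsion {p : ℕ} (hp : 0 < p) (κ : ℕ) (D : UnitAddCircle) :
    ∃ (E : ℤ) (a : ℝ), D = (((E : ℝ) / (p : ℝ) ^ κ + a : ℝ) : UnitAddCircle) ∧
      (p : ℝ) ^ κ * |a| = ‖p ^ κ • D‖ := by
  have hpκ : (0 : ℝ) < (p : ℝ) ^ κ := by positivity
  refine ⟨round ((p : ℝ) ^ κ * rep D), rep D - round ((p : ℝ) ^ κ * rep D) / (p : ℝ) ^ κ, ?_, ?_⟩
  · rw [add_sub_cancel, coe_rep]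
  · conv_rhs => rw [← coe_rep D]
    rw [nsmul_coe, UnitAddCircle.norm_eq, Nat.cast_pow, ← abs_of_pos hpκ, ← abs_mul, abs_of_pos hpκ]
    congr 1
    field_simp

theorem dvd_of_norm_lt {n : ℕ} (hn : 0 < n) {k : ℤ}
    (h : ‖(((k : ℝ) / (n : ℝ) : ℝ) : UnitAddCircle)‖ < 1 / (n : ℝ)) : (n : ℤ) ∣ k := by
  have hn' : (0 : ℝ) < n := by exact_mod_cast hn
  rw [UnitAddCircle.norm_eq] at h
  set z := round ((k : ℝ) / (n : ℝ)) with hz
  have h1 : |(k : ℝ) - n * z| < 1 := by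
    have : (k : ℝ) - n * z = n * ((k : ℝ) / n - z) := by field_simp
    rw [this, abs_mul, abs_of_pos hn']
    calc (n : ℝ) * |(k : ℝ) / n - z| < n * (1 / n) := by gcongr
      _ = 1 := by field_simp
  have h2 : |k - n * z| < 1 := by exact_mod_cast h1
  have h3 : k - n * z = 0 := Int.abs_lt_one_iff.1 h2
  exact ⟨z, by linarith⟩

/-- The valuation step: a torsion point whose last digit is nonzero has large order under the
powers of `q`. -/
theorem order_lower {p P C κ d : ℕ} {e : ℕ} (hp : 2 ≤ p) (hP : ∀ ℓ : ℕ, ℓ.Prime → ℓ ∣ p → P ≤ ℓ ^ p.factorization ℓ)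
    (hC : 0 < C) (he : ¬ p ∣ e) (hd : 0 < d) (hdvd : p ^ κ ∣ C * e * d) :
    P ^ (κ - 1) ≤ C * d := by
  have he0 : e ≠ 0 := by rintro rfl; exact he (dvd_zero _)
  have hp0 : p ≠ 0 := by omega
  rw [← Nat.factorization_prime_le_iff_dvd hp0 he0] at he
  push Not at he
  obtain ⟨ℓ, hℓ, hlt⟩ := he
  have hℓp : ℓ ∣ p := by
    by_contra hcon
    rw [Nat.factorization_eq_zero_of_not_dvd hcon] at hlt
    omega
  have h1 : (p ^ κ).factorization ℓ ≤ (C * e * d).factorization ℓ :=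
    (Nat.factorization_prime_le_iff_dvd (by positivity) (by positivity)).2 hdvd ℓ hℓ
  rw [Nat.factorization_mul (by positivity) hd.ne', Nat.factorization_mul hC.ne' he0,
    Nat.factorization_pow] at h1
  simp only [Finsupp.coe_add, Pi.add_apply, Finsupp.coe_smul, Pi.smul_apply, smul_eq_mul] at h1
  set v := p.factorization ℓ with hv
  have h2 : (κ - 1) * v ≤ (C * d).factorization ℓ := by
    rw [Nat.factorization_mul hC.ne' hd.ne']
    simp only [Finsupp.coe_add, Pi.add_apply]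
    rcases κ with _ | κ
    · simp
    · rw [Nat.add_sub_cancel]
      have : (κ + 1) * v = κ * v + v := by ring
      omega
  have h3 : ℓ ^ ((κ - 1) * v) ∣ C * d :=
    (hℓ.pow_dvd_iff_le_factorization (by positivity)).2 h2
  calc P ^ (κ - 1) ≤ (ℓ ^ v) ^ (κ - 1) := Nat.pow_le_pow_left (hP ℓ hℓ hℓp) _
    _ = ℓ ^ ((κ - 1) * v) := by rw [← pow_mul, mul_comm]
    _ ≤ C * d := Nat.le_of_dvd (by positivity) h3

/-- The multiplier of the `t`-th term of a row of length `M`. -/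
def mlt (p g w M t : ℕ) : ℕ := p ^ (w * (M - t)) * g ^ t

theorem mlt_eq {p g h w M t : ℕ} (hg : g = p ^ w * h) (ht : t ≤ M) :
    mlt p g w M t = p ^ (w * M) * h ^ t := by
  rw [mlt, hg, mul_pow, ← mul_assoc, ← pow_mul, ← pow_add, ← Nat.mul_add, Nat.sub_add_cancel ht]

/-- The rows of a branching pair meet many pairs of cells. -/
theorem row_count {p g h w P C : ℕ} (hp : 2 ≤ p) (hh : 2 ≤ h) (hcop : Nat.Coprime p h)
    (hg : g = p ^ w * h)
    (hP : ∀ ℓ : ℕ, ℓ.Prime → ℓ ∣ p → P ≤ ℓ ^ p.factorization ℓ) (hC : 0 < C)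
    (hord : ∀ n m a : ℕ, 0 < m → 0 < a → p ^ n ∣ a * (h ^ m - 1) → p ^ n ∣ C * a * m)
    {κ K M : ℕ} (hκ : 1 ≤ κ) (hM : 2 * h ^ M ≤ p ^ K) (hM2 : C * M ≤ P ^ (κ - 1))
    {u v : UnitAddCircle} (h1 : ‖p ^ (κ + w * M) • (u - v)‖ < 1 / (p : ℝ) ^ K)
    (h2 : ¬ ‖p ^ (κ + w * M - 1) • (u - v)‖ < 1 / (p : ℝ) ^ (K + 1)) (S : Finset ℕ) :
    ((Finset.range M).filter (fun j => dig (p ^ (κ + 2)) (mlt p g w M j • u) ∈ S ∧
      dig (p ^ (κ + 2)) (mlt p g w M j • v) ∈ S)).card ≤ S.card * S.card := by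
  have hp0 : (0 : ℝ) < p := by positivity
  have hpκ : (0 : ℝ) < (p : ℝ) ^ κ := by positivity
  obtain ⟨E, a, hD, ha⟩ := exists_torsion (p := p) (by omega) (κ + w * M) (u - v)
  have ha1 : (p : ℝ) ^ (κ + w * M) * |a| < 1 / (p : ℝ) ^ K := ha ▸ h1
  -- the last digit is nonzero
  have hE : ¬ p ∣ E.natAbs := by
    rintro hdvd
    apply h2
    obtain ⟨F, hF⟩ : (p : ℤ) ∣ E := Int.natCast_dvd.2 hdvd
    obtain ⟨κ', hκ'⟩ : ∃ κ', κ + w * M = κ' + 1 := ⟨κ + w * M - 1, by omega⟩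
    rw [hκ'] at hD ha1 ⊢
    rw [Nat.add_sub_cancel, hD, nsmul_coe]
    have e1 : ((p ^ κ' : ℕ) : ℝ) * ((E : ℝ) / (p : ℝ) ^ (κ' + 1) + a) = (F : ℝ) + (p : ℝ) ^ κ' * a := by
      rw [hF]; push_cast; field_simp; ring
    rw [e1, AddCircle.coe_add]
    have e2 : ((F : ℝ) : UnitAddCircle) = 0 := by
      rw [AddCircle.coe_eq_zero_iff]; exact ⟨F, by simp⟩
    rw [e2, zero_add]
    refine (norm_coe_le _).trans_lt ?_
    rw [abs_mul, abs_of_pos (by positivity), lt_div_iff₀ (by positivity)]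
    rw [lt_div_iff₀ (by positivity)] at ha1
    calc (p : ℝ) ^ κ' * |a| * (p : ℝ) ^ (K + 1) = (p : ℝ) ^ (κ' + 1) * |a| * (p : ℝ) ^ K := by ring
      _ < 1 := ha1
  have hE0 : 0 < E.natAbs := by
    rcases Nat.eq_zero_or_pos E.natAbs with h | h
    · exact absurd (h ▸ dvd_zero _) hE
    · exact h
  rw [← Finset.card_product]
  refine Finset.card_le_card_of_injOn
    (fun j => (dig (p ^ (κ + 2)) (mlt p g w M j • u), dig (p ^ (κ + 2)) (mlt p g w M j • v))) ?_ ?_
  · intro j hj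
    have := (Finset.mem_filter.1 hj).2
    exact Finset.mem_product.2 this
  -- injectivity
  have key : ∀ i j : ℕ, i < j → j < M →
      dig (p ^ (κ + 2)) (mlt p g w M i • u) = dig (p ^ (κ + 2)) (mlt p g w M j • u) →
      dig (p ^ (κ + 2)) (mlt p g w M i • v) = dig (p ^ (κ + 2)) (mlt p g w M j • v) → False := by
    intro i j hij hjM hu hv
    have hpos : 0 < p ^ (κ + 2) := by positivity
    have n1 := norm_lt_of_dig_eq hpos hu.symm
    have n2 := norm_lt_of_dig_eq hpos hv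
    have n3 : ‖(mlt p g w M j • u - mlt p g w M i • u) + (mlt p g w M i • v - mlt p g w M j • v)‖ <
        2 * (1 / ((p ^ (κ + 2) : ℕ) : ℝ)) := by
      refine (norm_add_le _ _).trans_lt ?_
      linarith
    have hqij : h ^ i ≤ h ^ j := Nat.pow_le_pow_right (by omega) hij.le
    have hmij : mlt p g w M i ≤ mlt p g w M j := by
      rw [mlt_eq hg (by omega), mlt_eq hg (by omega)]
      exact Nat.mul_le_mul_left _ hqij
    have e1 : (mlt p g w M j • u - mlt p g w M i • u) + (mlt p g w M i • v - mlt p g w M j • v) =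
        (mlt p g w M j - mlt p g w M i) • (u - v) := by
      rw [sub_nsmul _ hmij, smul_sub, smul_sub]
      abel
    rw [e1, hD, nsmul_coe, mlt_eq hg (by omega), mlt_eq hg (by omega), ← Nat.mul_sub] at n3
    set c : ℕ := h ^ j - h ^ i with hc
    have hcM : c ≤ h ^ M := (Nat.sub_le _ _).trans (Nat.pow_le_pow_right (by omega) hjM.le)
    have e2 : (((p ^ (w * M) * c : ℕ) : ℝ) * ((E : ℝ) / (p : ℝ) ^ (κ + w * M) + a)) =
        (((c : ℤ) * E : ℤ) : ℝ) / ((p ^ κ : ℕ) : ℝ) + (c : ℝ) * ((p : ℝ) ^ (w * M) * a) := by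
      push_cast
      rw [pow_add]
      field_simp
    rw [e2, AddCircle.coe_add] at n3
    have n4 : ‖(((c : ℝ) * ((p : ℝ) ^ (w * M) * a) : ℝ) : UnitAddCircle)‖ ≤ 1 / 2 * (1 / (p : ℝ) ^ κ) := by
      refine (norm_coe_le _).trans ?_
      rw [abs_mul, abs_of_nonneg (by positivity), abs_mul, abs_of_pos (by positivity : (0:ℝ) < (p : ℝ) ^ (w * M))]
      have h5 : (c : ℝ) ≤ (p : ℝ) ^ K / 2 := by
        have h6 : (2 * c : ℕ) ≤ p ^ K := by omega
        have h7 : ((2 * c : ℕ) : ℝ) ≤ ((p ^ K : ℕ) : ℝ) := by exact_mod_cast h6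
        push_cast at h7
        linarith
      have h8 : (p : ℝ) ^ (w * M) * |a| ≤ 1 / (p : ℝ) ^ K / (p : ℝ) ^ κ := by
        rw [le_div_iff₀ hpκ]
        calc (p : ℝ) ^ (w * M) * |a| * (p : ℝ) ^ κ = (p : ℝ) ^ (κ + w * M) * |a| := by
              rw [pow_add]; ring
          _ ≤ 1 / (p : ℝ) ^ K := ha1.le
      calc (c : ℝ) * ((p : ℝ) ^ (w * M) * |a|) ≤ (p : ℝ) ^ K / 2 * (1 / (p : ℝ) ^ K / (p : ℝ) ^ κ) := by
            gcongr
        _ = 1 / 2 * (1 / (p : ℝ) ^ κ) := by field_simp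
    have n5 : 2 * (1 / ((p ^ (κ + 2) : ℕ) : ℝ)) ≤ 1 / 2 * (1 / (p : ℝ) ^ κ) := by
      push_cast
      rw [pow_add]
      have h9 : (4 : ℝ) ≤ (p : ℝ) ^ 2 := by
        have : (2 : ℝ) ≤ p := by exact_mod_cast hp
        nlinarith
      rw [← div_div]
      have h10 : 1 / (p : ℝ) ^ κ / (p : ℝ) ^ 2 ≤ 1 / (p : ℝ) ^ κ / 4 := by gcongr
      linarith
    have n6 : ‖(((((c : ℤ) * E : ℤ) : ℝ) / ((p ^ κ : ℕ) : ℝ) : ℝ) : UnitAddCircle)‖ <
        1 / ((p ^ κ : ℕ) : ℝ) := by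
      have h11 := norm_sub_le ((((((c : ℤ) * E : ℤ) : ℝ) / ((p ^ κ : ℕ) : ℝ) : ℝ) : UnitAddCircle) +
        (((c : ℝ) * ((p : ℝ) ^ (w * M) * a) : ℝ) : UnitAddCircle))
        (((c : ℝ) * ((p : ℝ) ^ (w * M) * a) : ℝ) : UnitAddCircle)
      rw [add_sub_cancel_right] at h11
      refine h11.trans_lt ?_
      push_cast at n3 n4 n5 ⊢
      linarith
    have h12 := dvd_of_norm_lt (by positivity) n6
    have h13 : p ^ κ ∣ h ^ i * (E.natAbs * (h ^ (j - i) - 1)) := by
      have h14 : p ^ κ ∣ ((c : ℤ) * E).natAbs := Int.natCast_dvd.1 h12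
      rw [Int.natAbs_mul, Int.natAbs_natCast] at h14
      have h15 : c = h ^ i * (h ^ (j - i) - 1) := by
        rw [hc, Nat.mul_sub, ← pow_add, mul_one]
        congr 2
        omega
      rw [h15] at h14
      convert! h14 using 1
      ring
    have h16 : p ^ κ ∣ E.natAbs * (h ^ (j - i) - 1) :=
      (Nat.Coprime.pow κ i hcop).dvd_of_dvd_mul_left h13
    have h17 := hord κ (j - i) E.natAbs (by omega) hE0 h16
    have h18 := order_lower hp hP hC hE (by omega) h17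
    have h19 : C * (j - i) < C * M := by
      apply Nat.mul_lt_mul_of_pos_left _ hC
      omega
    omega
  intro i hi j hj hij
  simp only [Prod.mk.injEq] at hij
  have hi' := Finset.mem_range.1 (Finset.mem_filter.1 hi).1
  have hj' := Finset.mem_range.1 (Finset.mem_filter.1 hj).1
  rcases lt_trichotomy i j with h | h | h
  · exact absurd (key i j h hj' hij.1 hij.2) id
  · exact h
  · exact absurd (key j i h hi' hij.1.symm hij.2.symm) id

/-- The points with many visits to the complement of the cells in `S` along a row. -/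
def badSet (D : ℕ) (ν : ℕ → ℕ) (M : ℕ) (S : Finset ℕ) : Set UnitAddCircle :=
  {u | M ≤ 4 * ((Finset.range M).filter (fun j => dig D (ν j • u) ∉ S)).card}

theorem badSet_eq (D : ℕ) (ν : ℕ → ℕ) (M : ℕ) (S : Finset ℕ) :
    badSet D ν M S = {u | (M : ℝ≥0∞) ≤ 4 * ∑ j ∈ Finset.range M,
      ({x : UnitAddCircle | dig D x ∉ S}.indicator (fun _ => (1 : ℝ≥0∞)) (ν j • u))} := by
  ext u
  simp only [badSet, mem_ofPred_eq]
  have : ∑ j ∈ Finset.range M,
      ({x : UnitAddCircle | dig D x ∉ S}.indicator (fun _ => (1 : ℝ≥0∞)) (ν j • u)) =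
      (((Finset.range M).filter (fun j => dig D (ν j • u) ∉ S)).card : ℝ≥0∞) := by
    rw [Finset.card_filter]
    push_cast
    refine Finset.sum_congr rfl fun j _ => ?_
    by_cases h : dig D (ν j • u) ∈ S
    · simp [Set.indicator, h]
    · simp [Set.indicator, h]
  rw [this]
  exact_mod_cast Iff.rfl

theorem measurableSet_light (D : ℕ) (S : Finset ℕ) :
    MeasurableSet {x : UnitAddCircle | dig D x ∉ S} := by
  have : MeasurableSet ((dig D) ⁻¹' (((S : Set ℕ))ᶜ)) := measurable_dig D (Set.to_countable _).measurableSet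
  exact this

theorem measurable_nsmul (k : ℕ) : Measurable (fun u : UnitAddCircle => k • u) :=
  (continuous_const_smul k).measurable

theorem measurableSet_badSet (D : ℕ) (ν : ℕ → ℕ) (M : ℕ) (S : Finset ℕ) :
    MeasurableSet (badSet D ν M S) := by
  rw [badSet_eq]
  refine measurableSet_le measurable_const (Measurable.const_mul (Finset.measurable_sum _ fun j _ => ?_) _)
  exact (measurable_const.indicator (measurableSet_light D S)).comp (measurable_nsmul _)

theorem measure_badSet_le {μ : Measure UnitAddCircle} [IsProbabilityMeasure μ] {ν : ℕ → ℕ} {M : ℕ}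
    (hμ : ∀ j, MeasurePreserving (fun x : UnitAddCircle => ν j • x) μ μ) (D : ℕ) (hM : 0 < M)
    (S : Finset ℕ) :
    μ (badSet D ν M S) ≤ 4 * μ {x : UnitAddCircle | dig D x ∉ S} := by
  have hmeas : ∀ j, Measurable (fun u : UnitAddCircle =>
      ({x : UnitAddCircle | dig D x ∉ S}.indicator (fun _ => (1 : ℝ≥0∞)) (ν j • u))) := fun j =>
    (measurable_const.indicator (measurableSet_light D S)).comp (measurable_nsmul _)
  have h1 := mul_meas_ge_le_lintegral (μ := μ) (f := fun u : UnitAddCircle => 4 * ∑ j ∈ Finset.range M,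
      ({x : UnitAddCircle | dig D x ∉ S}.indicator (fun _ => (1 : ℝ≥0∞)) (ν j • u)))
      (Measurable.const_mul (Finset.measurable_sum _ fun j _ => hmeas j) _) (M : ℝ≥0∞)
  rw [← badSet_eq, lintegral_const_mul _ (Finset.measurable_sum _ fun j _ => hmeas j),
    lintegral_finsetSum _ (fun j _ => hmeas j)] at h1
  have h2 : ∀ j ∈ Finset.range M, ∫⁻ u : UnitAddCircle,
      ({x : UnitAddCircle | dig D x ∉ S}.indicator (fun _ => (1 : ℝ≥0∞)) (ν j • u)) ∂μ =
      μ {x : UnitAddCircle | dig D x ∉ S} := by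
    intro j _
    have h3 := (hμ j).lintegral_comp
      (f := {x : UnitAddCircle | dig D x ∉ S}.indicator (fun _ => (1 : ℝ≥0∞)))
      (measurable_const.indicator (measurableSet_light D S))
    rw [h3, lintegral_indicator_const (measurableSet_light D S), one_mul]
  rw [Finset.sum_congr rfl h2, Finset.sum_const, Finset.card_range, nsmul_eq_mul] at h1
  have hM0 : (M : ℝ≥0∞) ≠ 0 := by exact_mod_cast hM.ne'
  have hMt : (M : ℝ≥0∞) ≠ ⊤ := ENNReal.natCast_ne_top _
  have h4 : (M : ℝ≥0∞) * μ (badSet D ν M S) ≤ (M : ℝ≥0∞) * (4 * μ {x : UnitAddCircle | dig D x ∉ S}) := by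
    refine h1.trans (le_of_eq ?_)
    ring
  exact (ENNReal.mul_le_mul_iff_right hM0 hMt).1 h4

/-- Two points outside the bad set which branch force many cells. -/
theorem count_of_branch {p g h w P C : ℕ} (hp : 2 ≤ p) (hh : 2 ≤ h) (hcop : Nat.Coprime p h)
    (hg : g = p ^ w * h)
    (hP : ∀ ℓ : ℕ, ℓ.Prime → ℓ ∣ p → P ≤ ℓ ^ p.factorization ℓ) (hC : 0 < C)
    (hord : ∀ n m a : ℕ, 0 < m → 0 < a → p ^ n ∣ a * (h ^ m - 1) → p ^ n ∣ C * a * m)
    {κ K M : ℕ} (hκ : 1 ≤ κ) (hM : 2 * h ^ M ≤ p ^ K) (hM2 : C * M ≤ P ^ (κ - 1))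
    {u v : UnitAddCircle} (h1 : ‖p ^ (κ + w * M) • (u - v)‖ < 1 / (p : ℝ) ^ K)
    (h2 : ¬ ‖p ^ (κ + w * M - 1) • (u - v)‖ < 1 / (p : ℝ) ^ (K + 1)) (S : Finset ℕ)
    (hu : u ∉ badSet (p ^ (κ + 2)) (mlt p g w M) M S)
    (hv : v ∉ badSet (p ^ (κ + 2)) (mlt p g w M) M S) :
    M < 2 * (S.card * S.card) := by
  have h3 := row_count hp hh hcop hg hP hC hord hκ hM hM2 h1 h2 S
  simp only [badSet, mem_ofPred_eq, not_le] at hu hv
  set A := (Finset.range M).filter (fun j => dig (p ^ (κ + 2)) (mlt p g w M j • u) ∉ S) with hA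
  set B := (Finset.range M).filter (fun j => dig (p ^ (κ + 2)) (mlt p g w M j • v) ∉ S) with hB
  set J := (Finset.range M).filter (fun j => dig (p ^ (κ + 2)) (mlt p g w M j • u) ∈ S ∧
      dig (p ^ (κ + 2)) (mlt p g w M j • v) ∈ S) with hJ
  have h4 : Finset.range M ⊆ J ∪ (A ∪ B) := by
    intro j hj
    simp only [hJ, hA, hB, Finset.mem_union, Finset.mem_filter]
    tauto
  have h5 := Finset.card_le_card h4
  rw [Finset.card_range] at h5
  have h6 := Finset.card_union_le J (A ∪ B)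
  have h7 := Finset.card_union_le A B
  omega

theorem mp_mlt {μ : Measure UnitAddCircle} {p g : ℕ}
    (hp : MeasurePreserving (fun x : UnitAddCircle => p • x) μ μ)
    (hg : MeasurePreserving (fun x : UnitAddCircle => g • x) μ μ) (w M j : ℕ) :
    MeasurePreserving (fun x : UnitAddCircle => mlt p g w M j • x) μ μ := by
  have := (mp_pow hp (w * (M - j))).comp (mp_pow hg j)
  convert! this using 1
  funext x
  simp only [Function.comp_apply]
  rw [mlt, mul_smul]

end Pool.Agent.H.MP_96e181_an.helper43
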