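import Mathlib
import Pool.Agent.H.MP_96e181_an.helper43.Branch

set_option autoImplicit false

namespace Pool.Agent.H.MP_96e181_an.helper43

open MeasureTheory Filter Topology Set
open scoped ENNReal NNReal

open Pool.Agent.H.MP_96e181_an (rep dig dig_spec dig_lt measurable_dig coe_rep rep_nonneg
  rep_lt_one dig_mul_div)

/-- Shannon entropy of the partition of the circle into `D` intervals. -/
noncomputable def entD (μ : Measure UnitAddCircle) (D : ℕ) : ℝ :=
  ∑ a ∈ Finset.range D, Real.negMulLog (μ.real {x : UnitAddCircle | dig D x = a})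

/-- One fibre of the Fano inequality. -/
theorem fano_fiber {p : ℕ} (m : ℕ → ℝ) (hm : ∀ d, 0 ≤ m d) {g : ℕ} (hg : g < p) {ε : ℝ}
    (hε : 0 < ε) :
    ∑ d ∈ Finset.range p, Real.negMulLog (m d) ≤
      Real.negMulLog (∑ d ∈ Finset.range p, m d) + (ε * (∑ d ∈ Finset.range p, m d) +
        ((∑ d ∈ Finset.range p, m d) - m g) * Real.log (p / ε)) := by
  set M := ∑ d ∈ Finset.range p, m d with hM
  have hp0 : (0 : ℝ) < p := by exact_mod_cast (by omega : 0 < p)
  have hM0 : 0 ≤ M := Finset.sum_nonneg fun d _ => hm d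
  have hmM : ∀ d ∈ Finset.range p, m d ≤ M := fun d hd =>
    Finset.single_le_sum (fun i _ => hm i) hd
  have h1 : ∀ d ∈ (Finset.range p).erase g,
      Real.negMulLog (m d) ≤ -(m d * Real.log M) + (ε / p * M - m d + m d * Real.log (p / ε)) := by
    intro d hd
    have hd' := Finset.mem_of_mem_erase hd
    rcases (hm d).eq_or_lt with h0 | h0
    · rw [← h0, Real.negMulLog_zero]
      have : 0 ≤ ε / p * M := by positivity
      linarith
    · have hMpos : 0 < M := h0.trans_le (hmM d hd')
      have h2 : Real.log (M * (ε / p) / m d) ≤ M * (ε / p) / m d - 1 :=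
        Real.log_le_sub_one_of_pos (by positivity)
      rw [Real.log_div (by positivity) h0.ne', Real.log_mul hMpos.ne' (by positivity)] at h2
      have h3 : m d * (Real.log M + Real.log (ε / p) - Real.log (m d)) ≤ M * (ε / p) - m d := by
        calc m d * (Real.log M + Real.log (ε / p) - Real.log (m d))
            ≤ m d * (M * (ε / p) / m d - 1) := by gcongr
          _ = M * (ε / p) - m d := by field_simp
      have h4 : Real.log (ε / p) = - Real.log (p / ε) := by
        rw [← Real.log_inv, inv_div]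
      rw [h4] at h3
      rw [Real.negMulLog]
      nlinarith
  have h2 : Real.negMulLog (m g) ≤ -(m g * Real.log M) + (M - m g) := by
    rcases (hm g).eq_or_lt with h0 | h0
    · rw [← h0, Real.negMulLog_zero]
      linarith
    · have hMpos : 0 < M := h0.trans_le (hmM g (Finset.mem_range.2 hg))
      have h2 : Real.log (M / m g) ≤ M / m g - 1 := Real.log_le_sub_one_of_pos (by positivity)
      rw [Real.log_div hMpos.ne' h0.ne'] at h2
      have h3 : m g * (Real.log M - Real.log (m g)) ≤ M - m g := by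
        calc m g * (Real.log M - Real.log (m g)) ≤ m g * (M / m g - 1) := by gcongr
          _ = M - m g := by field_simp
      rw [Real.negMulLog]
      linarith
  have hgm : g ∈ Finset.range p := Finset.mem_range.2 hg
  have hsum := Finset.sum_le_sum h1
  rw [Finset.sum_add_distrib, Finset.sum_add_distrib, Finset.sum_sub_distrib, Finset.sum_const,
    Finset.card_erase_of_mem hgm, Finset.card_range, nsmul_eq_mul, Finset.sum_neg_distrib,
    ← Finset.sum_mul, ← Finset.sum_mul] at hsum
  have hE : ∑ d ∈ (Finset.range p).erase g, m d = M - m g := by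
    rw [hM, ← Finset.add_sum_erase _ _ hgm]; ring
  rw [hE] at hsum
  rw [← Finset.add_sum_erase _ _ hgm]
  have h5 : ((p - 1 : ℕ) : ℝ) * (ε / p * M) ≤ ε * M := by
    have h6 : ((p - 1 : ℕ) : ℝ) ≤ p := by exact_mod_cast Nat.sub_le _ _
    calc ((p - 1 : ℕ) : ℝ) * (ε / p * M) ≤ p * (ε / p * M) := by gcongr
      _ = ε * M := by field_simp
  have h6 : Real.negMulLog M = -(M * Real.log M) := by rw [Real.negMulLog]; ring
  rw [h6]
  nlinarith

theorem dig_mod {p D : ℕ} (hD : 0 < D) (x : UnitAddCircle) :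
    dig (p * D) x = dig p x * D + dig D (p • x) := by
  have h : p • x = (((p : ℝ) * rep x : ℝ) : UnitAddCircle) := by
    conv_lhs => rw [← coe_rep x]
    rw [← nsmul_eq_mul]; rfl
  have hrep : rep (p • x) = p * rep x - dig p x := by
    rw [h]
    have h1 := AddCircle.coe_equivIco_mk_apply (p := (1:ℝ)) ((p : ℝ) * rep x)
    have h2 : rep (((p : ℝ) * rep x : ℝ) : UnitAddCircle) = Int.fract ((p : ℝ) * rep x) := by
      rw [rep]
      refine h1.trans ?_
      simp
    rw [h2, dig]
    have h0 : 0 ≤ (p : ℝ) * rep x := mul_nonneg (Nat.cast_nonneg _) (rep_nonneg x)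
    have e : ((⌊(p : ℝ) * rep x⌋₊ : ℕ) : ℝ) = ((⌊(p : ℝ) * rep x⌋ : ℤ) : ℝ) := by
      exact_mod_cast natCast_floor_eq_intCast_floor h0
    rw [e, Int.fract]
  have hDr : (D : ℝ) * rep (p • x) = ((p * D : ℕ) : ℝ) * rep x - ((dig p x * D : ℕ) : ℝ) := by
    rw [hrep]; push_cast; ring
  have h3 : dig D (p • x) = dig (p * D) x - dig p x * D := by
    rw [dig, hDr, Nat.floor_sub_natCast]
    rfl
  have h4 : dig p x * D ≤ dig (p * D) x := by
    have h5 := dig_mul_div p D hD x
    rw [← h5]
    exact Nat.div_mul_le_self _ _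
  omega

/-- Equal first digits from closeness. -/
theorem dig_eq_of_close {p K : ℕ} (hp : 2 ≤ p) (hK : 1 ≤ K) {x y : UnitAddCircle}
    (h1 : dig (p ^ K) (p • x) = dig (p ^ K) (p • y)) (h2 : ‖x - y‖ < 1 / (p : ℝ) ^ (K + 1)) :
    dig p x = dig p y := by
  have hp0 : (0 : ℝ) < p := by positivity
  have hpK : 0 < p ^ K := by positivity
  have ex : rep x = ((dig p x : ℝ) + rep (p • x)) / p := by
    have h := dig_mod (p := p) (D := 1) one_pos x
    have hh : rep (p • x) = p * rep x - dig p x := by
      have h0 : p • x = (((p : ℝ) * rep x : ℝ) : UnitAddCircle) := by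
        conv_lhs => rw [← coe_rep x]
        rw [← nsmul_eq_mul]; rfl
      rw [h0]
      have h1 := AddCircle.coe_equivIco_mk_apply (p := (1:ℝ)) ((p : ℝ) * rep x)
      have h2 : rep (((p : ℝ) * rep x : ℝ) : UnitAddCircle) = Int.fract ((p : ℝ) * rep x) := by
        rw [rep]
        refine h1.trans ?_
        simp
      rw [h2, dig]
      have h0 : 0 ≤ (p : ℝ) * rep x := mul_nonneg (Nat.cast_nonneg _) (rep_nonneg x)
      have e : ((⌊(p : ℝ) * rep x⌋₊ : ℕ) : ℝ) = ((⌊(p : ℝ) * rep x⌋ : ℤ) : ℝ) := by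
        exact_mod_cast natCast_floor_eq_intCast_floor h0
      rw [e, Int.fract]
    rw [hh]; field_simp; ring
  have ey : rep y = ((dig p y : ℝ) + rep (p • y)) / p := by
    have hh : rep (p • y) = p * rep y - dig p y := by
      have h0 : p • y = (((p : ℝ) * rep y : ℝ) : UnitAddCircle) := by
        conv_lhs => rw [← coe_rep y]
        rw [← nsmul_eq_mul]; rfl
      rw [h0]
      have h1 := AddCircle.coe_equivIco_mk_apply (p := (1:ℝ)) ((p : ℝ) * rep y)
      have h2 : rep (((p : ℝ) * rep y : ℝ) : UnitAddCircle) = Int.fract ((p : ℝ) * rep y) := by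
        rw [rep]
        refine h1.trans ?_
        simp
      rw [h2, dig]
      have h0 : 0 ≤ (p : ℝ) * rep y := mul_nonneg (Nat.cast_nonneg _) (rep_nonneg y)
      have e : ((⌊(p : ℝ) * rep y⌋₊ : ℕ) : ℝ) = ((⌊(p : ℝ) * rep y⌋ : ℤ) : ℝ) := by
        exact_mod_cast natCast_floor_eq_intCast_floor h0
      rw [e, Int.fract]
    rw [hh]; field_simp; ring
  have s1 := dig_spec hpK (p • x)
  have s2 := dig_spec hpK (p • y)
  rw [h1] at s1
  have e : x - y = ((rep x - rep y : ℝ) : UnitAddCircle) := by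
    rw [AddCircle.coe_sub, coe_rep, coe_rep]
  rw [e, UnitAddCircle.norm_eq] at h2
  set z := round (rep x - rep y) with hz
  have hK2 : (2 : ℝ) ≤ (p : ℝ) ^ K := by
    have : (2 : ℝ) ≤ p := by exact_mod_cast hp
    calc (2 : ℝ) ≤ p := this
      _ = (p : ℝ) ^ 1 := (pow_one _).symm
      _ ≤ (p : ℝ) ^ K := pow_le_pow_right₀ (by linarith) hK
  have h3 : |((dig p x : ℝ) - dig p y) + (rep (p • x) - rep (p • y)) - p * z| < 1 / (p : ℝ) ^ K := by
    have h4 : ((dig p x : ℝ) - dig p y) + (rep (p • x) - rep (p • y)) - p * z =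
        p * (rep x - rep y - z) := by
      rw [ex, ey]; field_simp; ring
    rw [h4, abs_mul, abs_of_pos hp0]
    calc (p : ℝ) * |rep x - rep y - z| < p * (1 / (p : ℝ) ^ (K + 1)) := by gcongr
      _ = 1 / (p : ℝ) ^ K := by rw [pow_succ]; field_simp
  have h5 : |rep (p • x) - rep (p • y)| < 1 / (p : ℝ) ^ K := by
    push_cast at s1 s2
    rw [abs_lt]
    constructor <;> linarith [s1.1, s1.2, s2.1, s2.2]
  have h6 : 1 / (p : ℝ) ^ K ≤ 1 / 2 := one_div_le_one_div_of_le (by norm_num) hK2
  have h7 : |((dig p x : ℤ) - dig p y - p * z : ℤ)| < 1 := by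
    have h8 : |((dig p x : ℝ) - dig p y - p * z)| < 1 := by
      rw [abs_lt] at h3 h5 ⊢
      constructor <;> linarith [h3.1, h3.2, h5.1, h5.2]
    exact_mod_cast h8
  have h8 : (dig p x : ℤ) - dig p y - p * z = 0 := Int.abs_lt_one_iff.1 h7
  have hx : dig p x < p := dig_lt (by omega) x
  have hy : dig p y < p := dig_lt (by omega) y
  have hz0 : z = 0 := by
    by_contra hne
    rcases lt_or_gt_of_ne hne with h | h
    · have : (p : ℤ) * z ≤ p * (-1) := by
        apply mul_le_mul_of_nonneg_left (by omega) (by positivity)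
      have hy' : (dig p y : ℤ) < p := by exact_mod_cast hy
      have hx' : (0 : ℤ) ≤ dig p x := by positivity
      linarith
    · have : (p : ℤ) * 1 ≤ p * z := by
        apply mul_le_mul_of_nonneg_left (by omega) (by positivity)
      have hx' : (dig p x : ℤ) < p := by exact_mod_cast hx
      have hy' : (0 : ℤ) ≤ dig p y := by positivity
      linarith
  rw [hz0, mul_zero, sub_zero] at h8
  have : (dig p x : ℤ) = dig p y := by linarith
  exact_mod_cast this

end Pool.Agent.H.MP_96e181_an.helper43
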