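import Mathlib
import Pool.Agent.H.MP_96e181_an.helper43.Ent

set_option autoImplicit false

namespace Pool.Agent.H.MP_96e181_an.helper43

open MeasureTheory Filter Topology Set
open scoped ENNReal NNReal

open Pool.Agent.H.MP_96e181_an (rep dig dig_spec dig_lt measurable_dig coe_rep rep_nonneg
  rep_lt_one dig_mul_div)

theorem sum_range_mul' (p D : ℕ) (f : ℕ → ℝ) :
    ∑ c ∈ Finset.range (p * D), f c =
      ∑ a ∈ Finset.range D, ∑ d ∈ Finset.range p, f (d * D + a) := by
  rw [Finset.sum_comm]
  induction p with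
  | zero => simp
  | succ p ih =>
    rw [add_mul, one_mul, Finset.sum_range_add, ih, Finset.sum_range_succ]

/-- **One step of the entropy estimate.** -/
theorem ent_step {p K l : ℕ} (hp : 2 ≤ p) (hK : 1 ≤ K) (hl : 1 ≤ l) {μ : Measure UnitAddCircle}
    [IsProbabilityMeasure μ] (hμ : MeasurePreserving (fun x : UnitAddCircle => p • x) μ μ)
    {B : Set UnitAddCircle} (hB : MeasurableSet B)
    (hstar : ∀ u v : UnitAddCircle, u ∉ B → v ∉ B →
      ‖p ^ l • (u - v)‖ < 1 / (p : ℝ) ^ K → ‖p ^ (l - 1) • (u - v)‖ < 1 / (p : ℝ) ^ (K + 1))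
    {ε : ℝ} (hε : 0 < ε) (hε1 : ε ≤ 1) (hBε : μ.real B ≤ ε) :
    entD μ (p ^ (K + 1)) ≤ entD μ (p ^ K) + ε * (1 + Real.log (p / ε)) := by
  have hp0 : (0 : ℝ) < p := by positivity
  have hD : 0 < p ^ K := by positivity
  obtain ⟨l, rfl⟩ : ∃ l', l = l' + 1 := ⟨l - 1, by omega⟩
  simp only [Nat.add_sub_cancel] at hstar
  set X : UnitAddCircle → ℕ := fun u => dig p (p ^ l • u) with hX
  set Y : UnitAddCircle → ℕ := fun u => dig (p ^ K) (p ^ (l + 1) • u) with hY
  have hmn : ∀ n : ℕ, Measurable (fun u : UnitAddCircle => n • u) := fun n => by fun_prop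
  have hXm : Measurable X := (measurable_dig p).comp (hmn _)
  have hYm : Measurable Y := (measurable_dig (p ^ K)).comp (hmn _)
  have hXlt : ∀ u, X u < p := fun u => dig_lt (by omega) _
  have hYlt : ∀ u, Y u < p ^ K := fun u => dig_lt hD _
  have hXY : ∀ u, dig (p ^ (K + 1)) (p ^ l • u) = X u * p ^ K + Y u := by
    intro u
    have e : p ^ (l + 1) • u = p • p ^ l • u := by rw [pow_succ', mul_smul]
    simp only [hX, hY]
    rw [e, ← dig_mod hD, pow_succ']
  have hclose : ∀ u v, u ∉ B → v ∉ B → Y u = Y v → X u = X v := by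
    intro u v hu hv h
    have h1 : ‖p ^ (l + 1) • (u - v)‖ < 1 / (p : ℝ) ^ K := by
      rw [smul_sub]
      have := norm_lt_of_dig_eq hD h
      rwa [Nat.cast_pow] at this
    have h2 := hstar u v hu hv h1
    rw [smul_sub] at h2
    refine dig_eq_of_close hp hK ?_ h2
    rw [← mul_smul, ← mul_smul, ← pow_succ']
    exact h
  -- masses
  set m : ℕ → ℕ → ℝ := fun a d => μ.real {u | X u = d ∧ Y u = a} with hm
  have hmeas : ∀ a d, MeasurableSet {u | X u = d ∧ Y u = a} := fun a d =>
    (measurableSet_eq_fun hXm measurable_const).inter (measurableSet_eq_fun hYm measurable_const)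
  have hM : ∀ a, ∑ d ∈ Finset.range p, m a d = μ.real {u | Y u = a} := by
    intro a
    rw [hm]
    rw [← measureReal_biUnion_finset]
    · congr 1
      ext u
      simp only [Finset.mem_range, mem_iUnion, mem_ofPred_eq, exists_prop]
      constructor
      · rintro ⟨d, -, -, h⟩; exact h
      · intro h; exact ⟨X u, hXlt u, rfl, h⟩
    · intro d _ d' _ hdd
      rw [Function.onFun, Set.disjoint_left]
      rintro u ⟨h1, -⟩ ⟨h2, -⟩
      exact hdd (h1.symm.trans h2)
    · intro d _; exact hmeas a d
  have hMtot : ∑ a ∈ Finset.range (p ^ K), μ.real {u | Y u = a} = 1 := by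
    rw [← measureReal_biUnion_finset]
    · have : (⋃ b ∈ Finset.range (p ^ K), {u | Y u = b}) = univ := by
        ext u
        simp only [Finset.mem_range, mem_iUnion, mem_ofPred_eq, exists_prop, mem_univ, iff_true]
        exact ⟨Y u, hYlt u, rfl⟩
      rw [this, probReal_univ]
    · intro d _ d' _ hdd
      rw [Function.onFun, Set.disjoint_left]
      intro u h1 h2
      exact hdd (h1.symm.trans h2)
    · intro d _; exact measurableSet_eq_fun hYm measurable_const
  have hBtot : ∑ a ∈ Finset.range (p ^ K), μ.real (B ∩ {u | Y u = a}) = μ.real B := by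
    rw [← measureReal_biUnion_finset]
    · congr 1
      ext u
      simp only [Finset.mem_range, mem_iUnion, mem_inter_iff, mem_ofPred_eq, exists_prop]
      constructor
      · rintro ⟨d, -, h, -⟩; exact h
      · intro h; exact ⟨Y u, hYlt u, h, rfl⟩
    · intro d _ d' _ hdd
      rw [Function.onFun, Set.disjoint_left]
      rintro u ⟨-, h1⟩ ⟨-, h2⟩
      exact hdd (h1.symm.trans h2)
    · intro d _; exact hB.inter (measurableSet_eq_fun hYm measurable_const)
  -- good digits
  have hg : ∀ a, ∃ g < p, μ.real {u | Y u = a} ≤ m a g + μ.real (B ∩ {u | Y u = a}) := by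
    intro a
    by_cases h : ∃ u, u ∉ B ∧ Y u = a
    · obtain ⟨u0, hu0, hYu0⟩ := h
      refine ⟨X u0, hXlt u0, ?_⟩
      refine (measureReal_mono ?_).trans (measureReal_union_le _ _)
      intro u hu
      by_cases huB : u ∈ B
      · exact Or.inr ⟨huB, hu⟩
      · exact Or.inl ⟨hclose u u0 huB hu0 (hu.trans hYu0.symm), hu⟩
    · push Not at h
      refine ⟨0, by omega, ?_⟩
      have h1 : μ.real {u | Y u = a} ≤ μ.real (B ∩ {u | Y u = a}) := by
        refine measureReal_mono ?_
        intro u hu
        by_contra hne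
        exact h u (fun hb => hne ⟨hb, hu⟩) hu
      have h2 : 0 ≤ m a 0 := measureReal_nonneg
      linarith
  choose g hgp hgm using hg
  have hlog : 0 ≤ Real.log (p / ε) := by
    apply Real.log_nonneg
    rw [le_div_iff₀ hε, one_mul]
    have : (2 : ℝ) ≤ p := by exact_mod_cast hp
    linarith
  -- the two entropies
  have hentY : entD μ (p ^ K) = ∑ a ∈ Finset.range (p ^ K), Real.negMulLog (μ.real {u | Y u = a}) := by
    rw [entD]
    refine Finset.sum_congr rfl fun a _ => ?_
    congr 1
    have := (mp_pow hμ (l + 1)).measureReal_preimage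
      (measurableSet_eq_fun (measurable_dig (p ^ K)) (measurable_const (a := a))).nullMeasurableSet
    exact this.symm
  have hentXY : entD μ (p ^ (K + 1)) =
      ∑ a ∈ Finset.range (p ^ K), ∑ d ∈ Finset.range p, Real.negMulLog (m a d) := by
    rw [entD, pow_succ', sum_range_mul' p (p ^ K)]
    refine Finset.sum_congr rfl fun a ha => Finset.sum_congr rfl fun d hd => ?_
    congr 1
    have := (mp_pow hμ l).measureReal_preimage
      (measurableSet_eq_fun (measurable_dig (p ^ (K + 1)))
        (measurable_const (a := d * p ^ K + a))).nullMeasurableSet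
    rw [← pow_succ', ← this, hm]
    congr 1
    ext u
    simp only [mem_preimage, mem_ofPred_eq]
    rw [hXY u]
    have hYu := hYlt u
    have ha' : a < p ^ K := Finset.mem_range.1 ha
    constructor
    · intro h
      have h1 : (X u * p ^ K + Y u) / p ^ K = X u := by
        rw [mul_comm, Nat.mul_add_div hD, Nat.div_eq_of_lt hYu, add_zero]
      have h2 : (d * p ^ K + a) / p ^ K = d := by
        rw [mul_comm, Nat.mul_add_div hD, Nat.div_eq_of_lt ha', add_zero]
      have h3 : X u = d := by rw [← h1, h, h2]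
      exact ⟨h3, by rw [h3] at h; omega⟩
    · rintro ⟨h1, h2⟩
      rw [h1, h2]
  rw [hentXY, hentY]
  calc ∑ a ∈ Finset.range (p ^ K), ∑ d ∈ Finset.range p, Real.negMulLog (m a d)
      ≤ ∑ a ∈ Finset.range (p ^ K), (Real.negMulLog (μ.real {u | Y u = a}) +
          (ε * μ.real {u | Y u = a} + μ.real (B ∩ {u | Y u = a}) * Real.log (p / ε))) := by
        refine Finset.sum_le_sum fun a _ => ?_
        have h1 := fano_fiber (p := p) (m a) (fun d => measureReal_nonneg) (hgp a) hε
        rw [hM a] at h1
        refine h1.trans ?_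
        have h2 : (μ.real {u | Y u = a} - m a (g a)) * Real.log (p / ε) ≤
            μ.real (B ∩ {u | Y u = a}) * Real.log (p / ε) := by
          apply mul_le_mul_of_nonneg_right _ hlog
          linarith [hgm a]
        linarith
    _ = ∑ a ∈ Finset.range (p ^ K), Real.negMulLog (μ.real {u | Y u = a}) +
          (ε + μ.real B * Real.log (p / ε)) := by
        rw [Finset.sum_add_distrib, Finset.sum_add_distrib, ← Finset.mul_sum, hMtot,
          ← Finset.sum_mul, hBtot, mul_one]
    _ ≤ ∑ a ∈ Finset.range (p ^ K), Real.negMulLog (μ.real {u | Y u = a}) +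
          ε * (1 + Real.log (p / ε)) := by
        have h3 : μ.real B * Real.log (p / ε) ≤ ε * Real.log (p / ε) :=
          mul_le_mul_of_nonneg_right hBε hlog
        linarith

end Pool.Agent.H.MP_96e181_an.helper43
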