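import Mathlib
import Pool.Agent.H.MP_96e181_an.Orth
import Pool.Agent.H.MP_96e181_an.helper43.Rows
import Pool.Agent.H.MP_96e181_an.helper43.Step

set_option autoImplicit false

namespace Pool.Agent.H.MP_96e181_an.helper43

open MeasureTheory Filter Topology Set
open scoped ENNReal NNReal

open Pool.Agent.H.MP_96e181_an (rep dig dig_spec dig_lt measurable_dig coe_rep ee norm_ee ee_add
  ee_int norm_ee_sub_ee)

theorem fourier_add_pt (k : ℤ) (x y : UnitAddCircle) :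
    (fourier k (x + y) : ℂ) = fourier k x * fourier k y := by
  simp only [fourier_apply, smul_add, AddCircle.toCircle_add, Circle.coe_mul]

theorem fourier_coe' (k : ℤ) (r : ℝ) : (fourier k (r : UnitAddCircle) : ℂ) = ee (k * r) := by
  rw [fourier_coe_apply, ee]
  congr 1
  push_cast
  ring

/-- `|1 - e(x)| ≥ 4 ‖x‖`. -/
theorem four_norm_le (x : ℝ) : 4 * ‖(x : UnitAddCircle)‖ ≤ ‖1 - ee x‖ := by
  have h0 : ee x = ee (x - round x) := by
    rw [← mul_one (ee (x - round x)), ← ee_int (round x), ← ee_add]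
    congr 1; ring
  have h1 : |x - round x| ≤ 1 / 2 := abs_sub_round x
  rw [UnitAddCircle.norm_eq, h0, norm_sub_rev]
  set y := x - round x with hy
  rw [ee, mul_comm _ Complex.I, Complex.norm_exp_I_mul_ofReal_sub_one, Real.norm_eq_abs, abs_mul]
  have h2 : 2 * Real.pi * y / 2 = Real.pi * y := by ring
  rw [h2]
  have h3 : |Real.pi * y| ≤ Real.pi / 2 := by
    rw [abs_mul, abs_of_pos Real.pi_pos]
    nlinarith [Real.pi_pos]
  have h4 := Real.mul_abs_le_abs_sin h3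
  rw [abs_mul, abs_of_pos Real.pi_pos] at h4
  have h5 : 2 / Real.pi * (Real.pi * |y|) = 2 * |y| := by
    field_simp
  rw [h5] at h4
  rw [abs_of_pos (by norm_num : (0:ℝ) < 2)]
  linarith

/-- Birkhoff average of the character `e_k` along the powers of `q^d`. -/
noncomputable def avg (q d : ℕ) (k : ℤ) (M : ℕ) (x : UnitAddCircle) : ℂ :=
  (∑ j ∈ Finset.range M, (fourier k (q ^ (d * j) • x) : ℂ)) / M

theorem not_dvd_of_lt {p l : ℕ} {k : ℤ} (hp : 2 ≤ p) (hk : k ≠ 0) (hkl : k.natAbs < 2 ^ l)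
    {E : ℤ} (hE : ¬ (p : ℤ) ∣ E) : ¬ ((p ^ (l + 1) : ℕ) : ℤ) ∣ k * E := by
  intro h
  have h1 : p ^ (l + 1) ∣ k.natAbs * E.natAbs * 1 := by
    rw [mul_one, ← Int.natAbs_mul]
    exact Int.natCast_dvd.1 h
  have h2 : ¬ p ∣ E.natAbs := fun h => hE (Int.natCast_dvd.2 h)
  have h3 := order_lower (P := 2) hp (fun ℓ hℓ hdvd => ?_) (Int.natAbs_pos.2 hk) h2 one_pos h1
  · rw [Nat.add_sub_cancel, mul_one] at h3
    omega
  · have h4 : 1 ≤ p.factorization ℓ := by
      have := (hℓ.dvd_iff_one_le_factorization (by omega : p ≠ 0)).1 hdvd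
      exact this
    calc 2 ≤ ℓ := hℓ.two_le
      _ = ℓ ^ 1 := (pow_one _).symm
      _ ≤ ℓ ^ p.factorization ℓ := Nat.pow_le_pow_right hℓ.pos h4

/-- **Two points over the same cell whose rows have nearly equal, nonzero means cannot branch.** -/
theorem star {p q l d M K : ℕ} {k : ℤ} (hp : 2 ≤ p) (hq : 1 ≤ q) (hk : k ≠ 0)
    (hkl : k.natAbs < 2 ^ l) (hd : p ^ (l + 1) ∣ q ^ d - 1) {δ : ℝ} (hδ : 0 < δ) {z : ℂ}
    (hz : δ ≤ ‖z‖) (hM : Real.pi * |(k : ℝ)| * (q : ℝ) ^ (d * M) ≤ δ * (p : ℝ) ^ K)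
    {u v : UnitAddCircle} (hu : ‖avg q d k M u - z‖ < δ / (p : ℝ) ^ (l + 1))
    (hv : ‖avg q d k M v - z‖ < δ / (p : ℝ) ^ (l + 1))
    (h1 : ‖p ^ (l + 1) • (u - v)‖ < 1 / (p : ℝ) ^ K) :
    ‖p ^ l • (u - v)‖ < 1 / (p : ℝ) ^ (K + 1) := by
  have hp0 : (0 : ℝ) < p := by positivity
  have hpl : (0 : ℝ) < (p : ℝ) ^ (l + 1) := by positivity
  obtain ⟨E, a, hE, ha⟩ := exists_torsion (by omega : 0 < p) (l + 1) (u - v)
  rw [← ha] at h1
  by_cases hpE : (p : ℤ) ∣ E
  · obtain ⟨E', rfl⟩ := hpE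
    have h2 : p ^ l • (u - v) = (((p : ℝ) ^ l * a : ℝ) : UnitAddCircle) := by
      rw [hE, nsmul_coe]
      have h3 : ((p ^ l : ℕ) : ℝ) * (((p * E' : ℤ) : ℝ) / (p : ℝ) ^ (l + 1) + a) =
          (p : ℝ) ^ l * a + ((E' : ℤ) : ℝ) := by
        push_cast
        rw [pow_succ]
        field_simp
        ring
      rw [h3, AddCircle.coe_add]
      have h4 : (((E' : ℤ) : ℝ) : UnitAddCircle) = 0 := by
        rw [AddCircle.coe_eq_zero_iff]
        exact ⟨E', by simp⟩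
      rw [h4, add_zero]
    rw [h2]
    refine (norm_coe_le _).trans_lt ?_
    rw [abs_mul, abs_of_pos (by positivity : (0 : ℝ) < (p : ℝ) ^ l), lt_div_iff₀ (by positivity)]
    rw [lt_div_iff₀ (by positivity)] at h1
    calc (p : ℝ) ^ l * |a| * (p : ℝ) ^ (K + 1) = (p : ℝ) ^ (l + 1) * |a| * (p : ℝ) ^ K := by ring
      _ < 1 := h1
  · exfalso
    have hndvd := not_dvd_of_lt hp hk hkl hpE
    set ζ : ℂ := ee ((k * E : ℤ) / (p : ℝ) ^ (l + 1)) with hζ
    have hζn : ‖ζ‖ = 1 := norm_ee _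
    have hζ1 : 4 / (p : ℝ) ^ (l + 1) ≤ ‖1 - ζ‖ := by
      refine le_trans ?_ (four_norm_le _)
      have h3 : 1 / (p : ℝ) ^ (l + 1) ≤ ‖((((k * E : ℤ) : ℝ) / (p : ℝ) ^ (l + 1) : ℝ) : UnitAddCircle)‖ := by
        by_contra hcon
        push Not at hcon
        refine hndvd (dvd_of_norm_lt (by positivity) ?_)
        rw [Nat.cast_pow]
        exact hcon
      calc 4 / (p : ℝ) ^ (l + 1) = 4 * (1 / (p : ℝ) ^ (l + 1)) := by ring
        _ ≤ _ := by gcongr
    -- the rows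
    have hrow : ∀ j ∈ Finset.range M,
        ‖(fourier k (q ^ (d * j) • u) : ℂ) - ζ * fourier k (q ^ (d * j) • v)‖ ≤
          2 * Real.pi * (|(k : ℝ)| * (q : ℝ) ^ (d * M) * |a|) := by
      intro j hj
      have hj' : j ≤ M := (Finset.mem_range.1 hj).le
      have e1 : q ^ (d * j) • u = q ^ (d * j) • v + q ^ (d * j) • (u - v) := by
        rw [← smul_add]; congr 1; abel
      rw [e1, fourier_add_pt, hE, nsmul_coe, fourier_coe']
      obtain ⟨c, hc⟩ : p ^ (l + 1) ∣ q ^ (d * j) - 1 := by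
        rw [pow_mul]
        exact hd.trans (by simpa using Nat.sub_dvd_pow_sub_pow (q ^ d) 1 j)
      have hqj : q ^ (d * j) = p ^ (l + 1) * c + 1 := by
        have : 1 ≤ q ^ (d * j) := Nat.one_le_pow _ _ (by omega)
        omega
      have e2 : (k : ℝ) * (((q ^ (d * j) : ℕ) : ℝ) * ((E : ℝ) / (p : ℝ) ^ (l + 1) + a)) =
          ((k * E * c : ℤ) : ℝ) + (((k * E : ℤ) : ℝ) / (p : ℝ) ^ (l + 1) +
            (k : ℝ) * ((q : ℝ) ^ (d * j) * a)) := by
        have e3 : ((q ^ (d * j) : ℕ) : ℝ) * ((E : ℝ) / (p : ℝ) ^ (l + 1)) =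
            (E * c : ℤ) + (E : ℝ) / (p : ℝ) ^ (l + 1) := by
          rw [hqj]; push_cast; field_simp
        rw [mul_add, e3]
        push_cast
        ring
      rw [e2, ee_add, ee_int, one_mul, ee_add, ← hζ]
      have e4 : (fourier k (q ^ (d * j) • v) : ℂ) * (ζ * ee ((k : ℝ) * ((q : ℝ) ^ (d * j) * a))) -
          ζ * fourier k (q ^ (d * j) • v) =
          fourier k (q ^ (d * j) • v) * ζ * (ee ((k : ℝ) * ((q : ℝ) ^ (d * j) * a)) - ee 0) := by
        rw [ee_zero]; ring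
      rw [e4, norm_mul, norm_mul, hζn, mul_one]
      have e5 : ‖(fourier k (q ^ (d * j) • v) : ℂ)‖ = 1 := by
        rw [fourier_apply]; exact Circle.norm_coe _
      rw [e5, one_mul]
      refine (norm_ee_sub_ee _ _).trans ?_
      rw [sub_zero, abs_mul, abs_mul, abs_of_nonneg (by positivity : (0 : ℝ) ≤ (q : ℝ) ^ (d * j))]
      have h6 : (q : ℝ) ^ (d * j) ≤ (q : ℝ) ^ (d * M) := by
        apply pow_le_pow_right₀ (by exact_mod_cast hq)
        exact Nat.mul_le_mul_left _ hj'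
      rw [← mul_assoc |(k : ℝ)|]
      gcongr
    have havg : ‖avg q d k M u - ζ * avg q d k M v‖ ≤
        2 * Real.pi * (|(k : ℝ)| * (q : ℝ) ^ (d * M) * |a|) := by
      rcases Nat.eq_zero_or_pos M with rfl | hMpos
      · simp only [avg, Finset.range_zero, Finset.sum_empty, Nat.cast_zero, div_zero, mul_zero,
          sub_zero, norm_zero]
        positivity
      · have hM' : (0 : ℝ) < M := by exact_mod_cast hMpos
        have e1 : avg q d k M u - ζ * avg q d k M v = (∑ j ∈ Finset.range M,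
            ((fourier k (q ^ (d * j) • u) : ℂ) - ζ * fourier k (q ^ (d * j) • v))) / M := by
          rw [avg, avg, Finset.sum_sub_distrib, ← Finset.mul_sum]
          ring
        rw [e1, norm_div, Complex.norm_natCast, div_le_iff₀ hM']
        refine (norm_sum_le _ _).trans ((Finset.sum_le_sum hrow).trans ?_)
        rw [Finset.sum_const, Finset.card_range, nsmul_eq_mul, mul_comm]
    have herr : 2 * Real.pi * (|(k : ℝ)| * (q : ℝ) ^ (d * M) * |a|) ≤ 2 * δ / (p : ℝ) ^ (l + 1) := by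
      have h2 : |a| ≤ 1 / ((p : ℝ) ^ (l + 1) * (p : ℝ) ^ K) := by
        rw [le_div_iff₀ (by positivity)]
        rw [lt_div_iff₀ (by positivity)] at h1
        nlinarith
      calc 2 * Real.pi * (|(k : ℝ)| * (q : ℝ) ^ (d * M) * |a|)
          = 2 * (Real.pi * |(k : ℝ)| * (q : ℝ) ^ (d * M)) * |a| := by ring
        _ ≤ 2 * (δ * (p : ℝ) ^ K) * (1 / ((p : ℝ) ^ (l + 1) * (p : ℝ) ^ K)) := by gcongr
        _ = 2 * δ / (p : ℝ) ^ (l + 1) := by field_simp
    have hlow : 4 * δ / (p : ℝ) ^ (l + 1) ≤ ‖z - ζ * z‖ := by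
      have e1 : z - ζ * z = z * (1 - ζ) := by ring
      rw [e1, norm_mul]
      calc 4 * δ / (p : ℝ) ^ (l + 1) = δ * (4 / (p : ℝ) ^ (l + 1)) := by ring
        _ ≤ ‖z‖ * ‖1 - ζ‖ := by gcongr
    have hup : ‖z - ζ * z‖ ≤ ‖avg q d k M u - z‖ + ‖avg q d k M u - ζ * avg q d k M v‖ +
        ‖avg q d k M v - z‖ := by
      have e1 : z - ζ * z = -(avg q d k M u - z) + (avg q d k M u - ζ * avg q d k M v) +
          ζ * (avg q d k M v - z) := by ring
      rw [e1]
      refine (norm_add_le _ _).trans ?_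
      rw [norm_mul, hζn, one_mul]
      gcongr
      refine (norm_add_le _ _).trans ?_
      rw [norm_neg]
    have hfin : 4 * δ / (p : ℝ) ^ (l + 1) < δ / (p : ℝ) ^ (l + 1) + 2 * δ / (p : ℝ) ^ (l + 1) +
        δ / (p : ℝ) ^ (l + 1) := by linarith
    have : δ / (p : ℝ) ^ (l + 1) + 2 * δ / (p : ℝ) ^ (l + 1) + δ / (p : ℝ) ^ (l + 1) =
        4 * δ / (p : ℝ) ^ (l + 1) := by ring
    linarith

end Pool.Agent.H.MP_96e181_an.helper43
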