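import Mathlib
import Pool.Agent.H.MP_96e181_an.helper43.Rows

set_option autoImplicit false

namespace Pool.Agent.H.MP_96e181_an.helper43

open MeasureTheory Filter Topology Set
open scoped ENNReal NNReal

open Pool.Agent.H.MP_96e181_an (rep dig dig_spec dig_lt measurable_dig coe_rep order_bound)

/-- The scale attached to the precision `K`. -/
noncomputable def scl (P q : ℕ) (l : ℝ) (K : ℕ) : ℕ := ⌊(Nat.log P ((K - 1) / q) : ℝ) / l⌋₊

theorem tendsto_scl {P q : ℕ} (hP : 2 ≤ P) (hq : 0 < q) {l : ℝ} (hl : 1 ≤ l) :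
    Tendsto (fun K => scl P q l K) atTop atTop := by
  have h1 : Tendsto (fun K : ℕ => Nat.log P ((K - 1) / q)) atTop atTop := by
    refine tendsto_atTop_atTop.2 fun n => ⟨q * P ^ n + 1, fun K hK => ?_⟩
    have h1 : P ^ n ≤ (K - 1) / q := by
      rw [Nat.le_div_iff_mul_le hq, mul_comm]
      omega
    exact Nat.le_log_of_pow_le (by omega) h1
  have h2 : Tendsto (fun K : ℕ => (Nat.log P ((K - 1) / q) : ℝ) / l) atTop atTop :=
    (tendsto_natCast_atTop_atTop.comp h1).atTop_div_const (by linarith)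
  exact tendsto_nat_floor_atTop.comp h2

theorem eventually_big {P C : ℕ} (hP : 2 ≤ P) (hC : 0 < C) {a : ℝ} (ha : a < 1 / 2) :
    ∀ᶠ m : ℕ in atTop, ∀ s : ℕ, (s : ℝ) ≤ (P : ℝ) ^ (a * m) →
      0 < P ^ (m - 3) / C ∧ 2 * (s * s) ≤ P ^ (m - 3) / C := by
  have hP0 : (0 : ℝ) < P := by positivity
  have hP1 : (1 : ℝ) < P := by exact_mod_cast (by omega : 1 < P)
  set r : ℝ := (P : ℝ) ^ (2 * a - 1) with hr
  have hr0 : 0 ≤ r := by positivity
  have hr1 : r < 1 := Real.rpow_lt_one_of_one_lt_of_neg hP1 (by linarith)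
  have t1 : Tendsto (fun m : ℕ => 2 * r ^ m + (1 / (P : ℝ)) ^ m * 2) atTop (𝓝 (2 * 0 + 0 * 2)) := by
    refine ((tendsto_pow_atTop_nhds_zero_of_lt_one hr0 hr1).const_mul 2).add
      ((tendsto_pow_atTop_nhds_zero_of_lt_one (by positivity) ?_).mul_const 2)
    rw [div_lt_one hP0]; exact hP1
  have t2 : (0 : ℝ) < 1 / (C * (P : ℝ) ^ 3) := by positivity
  rw [mul_zero, zero_mul, add_zero] at t1
  filter_upwards [t1.eventually (gt_mem_nhds t2), eventually_ge_atTop 3] with m hm hm3 s hs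
  have h1 : 2 * (P : ℝ) ^ (2 * a * m) + 2 < (P : ℝ) ^ (m - 3) / C := by
    have h2 : (P : ℝ) ^ m * (2 * r ^ m + (1 / (P : ℝ)) ^ m * 2) < (P : ℝ) ^ m * (1 / (C * (P : ℝ) ^ 3)) := by
      gcongr
    have h3 : (P : ℝ) ^ m * (1 / (C * (P : ℝ) ^ 3)) = (P : ℝ) ^ (m - 3) / C := by
      have : (P : ℝ) ^ m = (P : ℝ) ^ (m - 3) * (P : ℝ) ^ 3 := by
        rw [← pow_add]; congr 1; omega
      rw [this]; field_simp
    have h4 : (P : ℝ) ^ m * (2 * r ^ m + (1 / (P : ℝ)) ^ m * 2) = 2 * (P : ℝ) ^ (2 * a * m) + 2 := by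
      have h5 : (P : ℝ) ^ m * r ^ m = (P : ℝ) ^ (2 * a * m) := by
        rw [hr, ← Real.rpow_natCast, ← Real.rpow_natCast, ← Real.rpow_mul hP0.le, ← Real.rpow_add hP0]
        congr 1
        ring
      have h6 : (P : ℝ) ^ m * (1 / (P : ℝ)) ^ m = 1 := by
        rw [← mul_pow, mul_one_div_cancel hP0.ne', one_pow]
      calc _ = 2 * ((P : ℝ) ^ m * r ^ m) + ((P : ℝ) ^ m * (1 / (P : ℝ)) ^ m) * 2 := by ring
        _ = _ := by rw [h5, h6, one_mul]
    rw [h3, h4] at h2
    exact h2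
  have h7 : ((P ^ (m - 3) / C : ℕ) : ℝ) + 1 > (P : ℝ) ^ (m - 3) / C := by
    have := Nat.lt_floor_add_one ((P : ℝ) ^ (m - 3) / C)
    have h8 : ⌊(P : ℝ) ^ (m - 3) / C⌋₊ = P ^ (m - 3) / C := by
      have := Nat.floor_div_eq_div (K := ℝ) (P ^ (m - 3)) C
      push_cast at this
      exact this
    rw [h8] at this
    exact this
  have h9 : (s : ℝ) * s ≤ (P : ℝ) ^ (2 * a * m) := by
    calc (s : ℝ) * s ≤ (P : ℝ) ^ (a * m) * (P : ℝ) ^ (a * m) := by gcongr
      _ = (P : ℝ) ^ (2 * a * m) := by rw [← Real.rpow_add hP0]; congr 1; ring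
  have h10 : (0 : ℝ) ≤ (P : ℝ) ^ (2 * a * m) := by positivity
  constructor
  · have : (0 : ℝ) < ((P ^ (m - 3) / C : ℕ) : ℝ) := by linarith
    exact_mod_cast this
  · have : ((2 * (s * s) : ℕ) : ℝ) ≤ ((P ^ (m - 3) / C : ℕ) : ℝ) := by
      push_cast at h7 ⊢
      linarith
    exact_mod_cast this

theorem tail_sum {f : ℕ → ℝ} (hf : Summable f) (h0 : ∀ n, 0 ≤ f n) :
    ∀ᶠ K0 in atTop, ∀ n, ∑ K ∈ Finset.Ico K0 n, f K ≤ 1 / 2 := by
  have := tendsto_sum_nat_add f
  filter_upwards [this.eventually (gt_mem_nhds (show (0 : ℝ) < 1 / 2 by norm_num))] with K0 hK0 n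
  rw [Finset.sum_Ico_eq_sum_range]
  refine le_trans ?_ hK0.le
  have h1 : Summable (fun k => f (k + K0)) := (summable_nat_add_iff K0).2 hf
  have h2 := h1.sum_le_tsum (Finset.range (n - K0)) (fun k _ => h0 _)
  simpa [add_comm] using h2

/-- **The covering theorem.** -/
theorem covering {p g h w P : ℕ} (hp : 2 ≤ p) (hh : 2 ≤ h) (hcop : Nat.Coprime p h)
    (hg : g = p ^ w * h) (hP2 : 2 ≤ P)
    (hP : ∀ ℓ : ℕ, ℓ.Prime → ℓ ∣ p → P ≤ ℓ ^ p.factorization ℓ)
    {μ : Measure UnitAddCircle} [IsProbabilityMeasure μ] [NullSingletonClass μ]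
    (hμp : MeasurePreserving (fun x : UnitAddCircle => p • x) μ μ)
    (hμg : MeasurePreserving (fun x : UnitAddCircle => g • x) μ μ)
    {a b l : ℝ} (ha : a < 1 / 2) (hl : 1 ≤ l) (hb : l < b)
    (H : ∀ᶠ n : ℕ in atTop, ∃ m : ℕ, n ≤ m ∧ (m : ℝ) ≤ l * n ∧ ∃ S : Finset ℕ,
      (S.card : ℝ) ≤ (P : ℝ) ^ (a * m) ∧
      μ {x : UnitAddCircle | dig (p ^ m) x ∉ S} ≤ ENNReal.ofReal ((P : ℝ) ^ (-(b * m)))) : False := by
  obtain ⟨C, hC, hord⟩ := order_bound hp hh hcop
  have hP0 : (0 : ℝ) < P := by positivity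
  have hP1 : (1 : ℝ) < P := by exact_mod_cast (by omega : 1 < P)
  have hh0 : (0 : ℝ) < h := by positivity
  have hl0 : 0 < l := by linarith
  have hb0 : 0 < b := by linarith
  obtain ⟨n0, hn0⟩ := eventually_atTop.1 H
  choose! m hm using hn0
  have hm1 : ∀ n, n0 ≤ n → n ≤ m n := fun n hn => (hm n hn).1
  have hm2 : ∀ n, n0 ≤ n → (m n : ℝ) ≤ l * n := fun n hn => (hm n hn).2.1
  have hm3 := fun n (hn : n0 ≤ n) => (hm n hn).2.2
  choose! S hS using hm3
  obtain ⟨m0, hm0⟩ := eventually_atTop.1 (eventually_big hP2 hC ha)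
  have hk := tendsto_scl hP2 (by omega : 0 < h) hl
  set f : ℕ → ℝ := fun K => 4 * ((P : ℝ) ^ b * (2 * (h : ℝ) * P) ^ (b / l)) * ((K : ℝ) ^ (b / l))⁻¹ with hf
  have hbl : 1 < b / l := by rw [one_lt_div hl0]; exact hb
  have hfs : Summable f := (Real.summable_nat_rpow_inv.2 hbl).mul_left _
  have hf0 : ∀ n, 0 ≤ f n := fun n => by positivity
  obtain ⟨K1, hK1⟩ := eventually_atTop.1
    ((hk.eventually (eventually_ge_atTop (n0 + m0 + 3))).and (eventually_ge_atTop (h + 2)))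
  obtain ⟨K0, hK0t, hK01⟩ := ((tail_sum hfs hf0).and (eventually_ge_atTop K1)).exists
  -- basic facts on the exponents
  have hbas : ∀ K, K0 ≤ K → n0 + m0 + 3 ≤ scl P h l K ∧ h + 2 ≤ K := fun K hK =>
    hK1 K (hK01.trans hK)
  have hlog : ∀ K, K0 ≤ K → m (scl P h l K) ≤ Nat.log P ((K - 1) / h) := by
    intro K hK
    have h1 := hm2 (scl P h l K) (by have := (hbas K hK).1; omega)
    have h2 : ((scl P h l K : ℕ) : ℝ) ≤ (Nat.log P ((K - 1) / h) : ℝ) / l :=
      Nat.floor_le (by positivity)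
    have h3 : (m (scl P h l K) : ℝ) ≤ (Nat.log P ((K - 1) / h) : ℝ) := by
      refine h1.trans ?_
      rw [le_div_iff₀ hl0] at h2
      linarith
    exact_mod_cast h3
  have hpow : ∀ K, K0 ≤ K → h * P ^ (m (scl P h l K) - 3) + 1 ≤ K := by
    intro K hK
    have h1 := (hbas K hK).2
    have h2 : (K - 1) / h ≠ 0 := by
      have : 1 ≤ (K - 1) / h := by
        rw [Nat.le_div_iff_mul_le (by omega)]
        omega
      omega
    have h3 : P ^ (m (scl P h l K) - 3) ≤ (K - 1) / h := by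
      refine le_trans (Nat.pow_le_pow_right (by omega) ?_) (Nat.pow_log_le_self P h2)
      exact (Nat.sub_le _ _).trans (hlog K hK)
    have h4 : h * P ^ (m (scl P h l K) - 3) ≤ K - 1 :=
      (Nat.mul_le_mul_left h h3).trans (Nat.mul_div_le _ _)
    omega
  have hpow2 : ∀ K, K0 ≤ K → (K : ℝ) / (2 * h * P) ≤ (P : ℝ) ^ (Nat.log P ((K - 1) / h)) := by
    intro K hK
    have h1 := (hbas K hK).2
    have h2 : (K - 1) / h < P ^ (Nat.log P ((K - 1) / h) + 1) := Nat.lt_pow_succ_log_self (by omega) _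
    have h3 : K - 1 < P ^ (Nat.log P ((K - 1) / h) + 1) * h := (Nat.div_lt_iff_lt_mul (by omega)).1 h2
    have h4 : K ≤ P ^ (Nat.log P ((K - 1) / h) + 1) * h := by omega
    have h5 : (K : ℝ) ≤ (P : ℝ) ^ (Nat.log P ((K - 1) / h) + 1) * h := by exact_mod_cast h4
    rw [div_le_iff₀ (by positivity)]
    rw [pow_succ] at h5
    have h6 : (0 : ℝ) ≤ (P : ℝ) ^ (Nat.log P ((K - 1) / h)) * P * h := by positivity
    linarith
  have hge : ∀ K, K0 ≤ K → n0 + m0 + 3 ≤ m (scl P h l K) := by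
    intro K hK
    have h1 := (hbas K hK).1
    have h2 := hm1 (scl P h l K) (by omega)
    omega
  refine no_branch hp hμp
    (fun K => m (scl P h l K) - 2 + w * (P ^ (m (scl P h l K) - 3) / C))
    (fun K => badSet (p ^ (m (scl P h l K)))
      (mlt p g w (P ^ (m (scl P h l K) - 3) / C)) (P ^ (m (scl P h l K) - 3) / C)
      (S (scl P h l K))) K0
    (fun K hK => by have := hge K hK; omega) (fun K => measurableSet_badSet _ _ _ _) ?_ ?_
  · intro K hK u v hu hv h1
    by_contra h2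
    have hg' := hge K hK
    obtain ⟨h3, h4⟩ := hS (scl P h l K) (by have := (hbas K hK).1; omega)
    have h7 := hm0 (m (scl P h l K)) (by omega) (S (scl P h l K)).card h3
    have h8 := hpow K hK
    have hM : 2 * h ^ (P ^ (m (scl P h l K) - 3) / C) ≤ p ^ K := by
      calc 2 * h ^ (P ^ (m (scl P h l K) - 3) / C) ≤ 2 * h ^ (P ^ (m (scl P h l K) - 3)) := by
            gcongr
            · omega
            · exact Nat.div_le_self _ _
        _ ≤ 2 * (2 ^ h) ^ (P ^ (m (scl P h l K) - 3)) := by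
            gcongr
            exact Nat.lt_two_pow_self.le
        _ = 2 ^ (h * P ^ (m (scl P h l K) - 3) + 1) := by rw [← pow_mul, pow_succ]; ring
        _ ≤ 2 ^ K := Nat.pow_le_pow_right (by omega) h8
        _ ≤ p ^ K := Nat.pow_le_pow_left hp K
    have e1 : m (scl P h l K) - 2 + 2 = m (scl P h l K) := by omega
    have e2 : m (scl P h l K) - 2 - 1 = m (scl P h l K) - 3 := by omega
    have h9 := count_of_branch hp hh hcop hg hP hC hord (κ := m (scl P h l K) - 2) (K := K)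
      (M := P ^ (m (scl P h l K) - 3) / C) (by omega) hM (by rw [e2]; exact Nat.mul_div_le _ _)
      h1 h2 (S (scl P h l K)) (by rw [e1]; exact hu) (by rw [e1]; exact hv)
    omega
  · intro n
    have h1 : ∀ K ∈ Finset.Ico K0 n,
        μ (badSet (p ^ (m (scl P h l K))) (mlt p g w (P ^ (m (scl P h l K) - 3) / C))
          (P ^ (m (scl P h l K) - 3) / C) (S (scl P h l K))) ≤
        ENNReal.ofReal (f K) := by
      intro K hK
      have hK' := (Finset.mem_Ico.1 hK).1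
      have hg' := hge K hK'
      obtain ⟨h3, h4⟩ := hS (scl P h l K) (by have := (hbas K hK').1; omega)
      have h7 := hm0 (m (scl P h l K)) (by omega) (S (scl P h l K)).card h3
      refine (measure_badSet_le (fun j => mp_mlt hμp hμg _ _ j) _ h7.1 _).trans ?_
      refine (mul_le_mul_right h4 4).trans ?_
      rw [show (4 : ℝ≥0∞) = ENNReal.ofReal 4 by simp, ← ENNReal.ofReal_mul (by norm_num)]
      apply ENNReal.ofReal_le_ofReal
      rw [hf]
      simp only
      rw [mul_assoc]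
      refine mul_le_mul_of_nonneg_left ?_ (by norm_num)
      have hKpos : (0 : ℝ) < K := by
        have : 0 < K := by have := (hbas K hK').2; omega
        exact_mod_cast this
      have h8 := hpow2 K hK'
      have h9 : (scl P h l K : ℝ) ≤ (m (scl P h l K) : ℝ) := by
        exact_mod_cast hm1 (scl P h l K) (by have := (hbas K hK').1; omega)
      have h10 : (Nat.log P ((K - 1) / h) : ℝ) / l - 1 < (scl P h l K : ℝ) := Nat.sub_one_lt_floor _
      calc (P : ℝ) ^ (-(b * (m (scl P h l K) : ℝ)))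
          ≤ (P : ℝ) ^ (-(b * ((Nat.log P ((K - 1) / h) : ℝ) / l - 1))) := by
            apply Real.rpow_le_rpow_of_exponent_le hP1.le
            nlinarith
        _ = (P : ℝ) ^ b * (((P : ℝ) ^ (Nat.log P ((K - 1) / h))) ^ (b / l))⁻¹ := by
            rw [← Real.rpow_natCast, ← Real.rpow_mul hP0.le, ← Real.rpow_neg hP0.le,
              ← Real.rpow_add hP0]
            congr 1
            ring
        _ ≤ (P : ℝ) ^ b * (((K : ℝ) / (2 * h * P)) ^ (b / l))⁻¹ := by gcongr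
        _ = (P : ℝ) ^ b * (2 * (h : ℝ) * P) ^ (b / l) * ((K : ℝ) ^ (b / l))⁻¹ := by
            rw [Real.div_rpow hKpos.le (by positivity), inv_div]
            ring
    refine (Finset.sum_le_sum h1).trans ?_
    rw [← ENNReal.ofReal_sum_of_nonneg (fun K _ => hf0 K)]
    refine (ENNReal.ofReal_le_ofReal (hK0t n)).trans (le_of_eq ?_)
    rw [ENNReal.ofReal_div_of_pos (by norm_num)]
    simp

end Pool.Agent.H.MP_96e181_an.helper43
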