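import Mathlib
import Pool.Agent.H.MP_96e181_an.helper43.Cover

set_option autoImplicit false

namespace Pool.Agent.H.MP_96e181_an.helper43

open MeasureTheory Filter Topology Set
open scoped ENNReal NNReal

open Pool.Agent.H.MP_96e181_an (rep dig dig_spec dig_lt measurable_dig coe_rep rep_nonneg)

theorem rep_coe_of_mem {r : ℝ} (h0 : 0 ≤ r) (h1 : r < 1) : rep (r : UnitAddCircle) = r := by
  have : (AddCircle.equivIco (1 : ℝ) 0 (r : UnitAddCircle) : ℝ) = r := by
    rw [AddCircle.coe_equivIco_mk_apply]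
    simp [Int.fract_eq_self.2 ⟨h0, h1⟩]
  exact this

/-- The cell `[a/D, (a+1)/D)` of the circle. -/
theorem image_Ico_eq {D a : ℕ} (hD : 0 < D) (ha : a < D) :
    ((fun r : ℝ => (r : UnitAddCircle)) '' Set.Ico ((a : ℝ) / D) (((a : ℝ) + 1) / D)) =
      {x : UnitAddCircle | dig D x = a} := by
  have hD' : (0 : ℝ) < D := by exact_mod_cast hD
  have ha' : (a : ℝ) + 1 ≤ D := by exact_mod_cast ha
  ext x
  constructor
  · rintro ⟨r, ⟨h1, h2⟩, rfl⟩
    have h0 : 0 ≤ r := le_trans (by positivity) h1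
    have h3 : r < 1 := by
      refine h2.trans_le ?_
      rw [div_le_one hD']
      exact ha'
    show dig D (r : UnitAddCircle) = a
    rw [dig, rep_coe_of_mem h0 h3, Nat.floor_eq_iff (by positivity)]
    rw [div_le_iff₀ hD'] at h1
    rw [lt_div_iff₀ hD'] at h2
    constructor <;> linarith
  · intro hx
    have hx' : dig D x = a := hx
    have h := dig_spec hD x
    rw [hx'] at h
    refine ⟨rep x, ⟨h.1, ?_⟩, coe_rep x⟩
    rw [add_div]
    exact h.2

/-- Positive Rényi entropy of small order, on long windows of scales. -/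
theorem renyi {p g h w P : ℕ} (hp : 2 ≤ p) (hh : 2 ≤ h) (hcop : Nat.Coprime p h)
    (hg : g = p ^ w * h) (hP2 : 2 ≤ P)
    (hP : ∀ ℓ : ℕ, ℓ.Prime → ℓ ∣ p → P ≤ ℓ ^ p.factorization ℓ)
    {μ : Measure UnitAddCircle} [IsProbabilityMeasure μ] [NullSingletonClass μ]
    (hμp : MeasurePreserving (fun x : UnitAddCircle => p • x) μ μ)
    (hμg : MeasurePreserving (fun x : UnitAddCircle => g • x) μ μ)
    {s c l : ℝ} (hs : 0 < s) (hl : 1 ≤ l) (hc0 : 0 ≤ c) (hc : c < (1 - (1 + 2 * l) * s) / 2) :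
    ∃ᶠ n : ℕ in atTop, ∀ m : ℕ, n ≤ m → (m : ℝ) ≤ l * n →
      (P : ℝ) ^ (c * m) < ∑ a ∈ Finset.range (p ^ m),
        (μ.real {x : UnitAddCircle | dig (p ^ m) x = a}) ^ s := by
  intro hcon
  have hP0 : (0 : ℝ) < P := by positivity
  -- choice of the threshold exponent
  have h1s : 0 < 1 - s := by nlinarith
  obtain ⟨t, ht1, ht2⟩ : ∃ t : ℝ, (l + c) / (1 - s) < t ∧ t < (1 / 2 - c) / s := by
    apply exists_between
    rw [div_lt_div_iff₀ h1s hs]
    nlinarith
  rw [div_lt_iff₀ h1s] at ht1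
  rw [lt_div_iff₀ hs] at ht2
  refine covering hp hh hcop hg hP2 hP hμp hμg (a := c + t * s) (b := t * (1 - s) - c) (l := l)
    (by linarith) hl (by linarith) ?_
  filter_upwards [hcon] with n hn'
  push Not at hn'
  obtain ⟨m, hnm, hml, hn⟩ := hn'
  refine ⟨m, hnm, hml, ?_⟩
  set w : ℕ → ℝ := fun a => μ.real {x : UnitAddCircle | dig (p ^ m) x = a} with hw
  have hw0 : ∀ a, 0 ≤ w a := fun a => measureReal_nonneg
  set τ : ℝ := (P : ℝ) ^ (-(t * m)) with hτ
  have hτ0 : 0 < τ := by positivity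
  refine ⟨(Finset.range (p ^ m)).filter (fun a => τ ≤ w a), ?_, ?_⟩
  · -- number of heavy cells
    have h1 : (((Finset.range (p ^ m)).filter (fun a => τ ≤ w a)).card : ℝ) * τ ^ s ≤
        (P : ℝ) ^ (c * m) := by
      refine le_trans ?_ hn
      rw [← nsmul_eq_mul, ← Finset.sum_const]
      refine (Finset.sum_le_sum fun a ha => ?_).trans
        (Finset.sum_le_sum_of_subset_of_nonneg (Finset.filter_subset _ _)
          (fun a _ _ => Real.rpow_nonneg (hw0 a) s))
      exact Real.rpow_le_rpow hτ0.le (Finset.mem_filter.1 ha).2 hs.le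
    have h2 : (P : ℝ) ^ ((c + t * s) * m) = (P : ℝ) ^ (c * m) / τ ^ s := by
      rw [hτ, ← Real.rpow_mul hP0.le, ← Real.rpow_sub hP0]
      congr 1
      ring
    rw [h2, le_div_iff₀ (by positivity)]
    exact h1
  · -- mass of the light cells
    have hsub : {x : UnitAddCircle | dig (p ^ m) x ∉ (Finset.range (p ^ m)).filter (fun a => τ ≤ w a)} ⊆
        ⋃ a ∈ (Finset.range (p ^ m)).filter (fun a => w a < τ), {x : UnitAddCircle | dig (p ^ m) x = a} := by
      intro x hx
      have h1 : dig (p ^ m) x < p ^ m := dig_lt (by positivity) x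
      have hx' : dig (p ^ m) x ∉ (Finset.range (p ^ m)).filter (fun a => τ ≤ w a) := hx
      rw [Finset.mem_filter, not_and, not_le] at hx'
      simp only [mem_iUnion, Finset.mem_filter, Finset.mem_range]
      exact ⟨dig (p ^ m) x, ⟨h1, hx' (Finset.mem_range.2 h1)⟩, rfl⟩
    refine (measure_mono hsub).trans ((measure_biUnion_finset_le _ _).trans ?_)
    have h3 : ∑ a ∈ (Finset.range (p ^ m)).filter (fun a => w a < τ),
        μ {x : UnitAddCircle | dig (p ^ m) x = a} =
        ENNReal.ofReal (∑ a ∈ (Finset.range (p ^ m)).filter (fun a => w a < τ), w a) := by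
      rw [ENNReal.ofReal_sum_of_nonneg (fun a _ => hw0 a)]
      refine Finset.sum_congr rfl fun a _ => ?_
      rw [hw, ofReal_measureReal]
    rw [h3]
    apply ENNReal.ofReal_le_ofReal
    have h4 : ∀ a ∈ (Finset.range (p ^ m)).filter (fun a => w a < τ), w a ≤ τ ^ (1 - s) * w a ^ s := by
      intro a ha
      have hlt := (Finset.mem_filter.1 ha).2
      rcases (hw0 a).eq_or_lt with h0 | h0
      · rw [← h0, Real.zero_rpow hs.ne', mul_zero]
      · calc w a = w a ^ (1 - s) * w a ^ s := by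
              rw [← Real.rpow_add h0]; simp
          _ ≤ τ ^ (1 - s) * w a ^ s := by
              gcongr
    have h5 : ∑ a ∈ (Finset.range (p ^ m)).filter (fun a => w a < τ), w a ^ s ≤
        ∑ a ∈ Finset.range (p ^ m), w a ^ s :=
      Finset.sum_le_sum_of_subset_of_nonneg (Finset.filter_subset _ _)
            (fun a _ _ => Real.rpow_nonneg (hw0 a) s)
    calc ∑ a ∈ (Finset.range (p ^ m)).filter (fun a => w a < τ), w a
        ≤ ∑ a ∈ (Finset.range (p ^ m)).filter (fun a => w a < τ), τ ^ (1 - s) * w a ^ s :=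
          Finset.sum_le_sum h4
      _ = τ ^ (1 - s) * ∑ a ∈ (Finset.range (p ^ m)).filter (fun a => w a < τ), w a ^ s := by
          rw [Finset.mul_sum]
      _ ≤ τ ^ (1 - s) * ∑ a ∈ Finset.range (p ^ m), w a ^ s :=
          mul_le_mul_of_nonneg_left h5 (by positivity)
      _ ≤ τ ^ (1 - s) * (P : ℝ) ^ (c * m) := by gcongr
      _ = (P : ℝ) ^ (-((t * (1 - s) - c) * m)) := by
          rw [hτ, ← Real.rpow_mul hP0.le, ← Real.rpow_add hP0]
          congr 1
          ring

end Pool.Agent.H.MP_96e181_an.helper43
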