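import Mathlib
import Pool.Agent.H.MP_96e181_an.helper43.Conc

set_option autoImplicit false

namespace Pool.Agent.H.MP_96e181_an.helper43

open MeasureTheory Filter Topology Set
open scoped ENNReal NNReal

open Pool.Agent.H.MP_96e181_an (rep dig dig_spec dig_lt measurable_dig coe_rep)

/-- The entropy step, including the case of a null exceptional set. -/
theorem ent_step' {p K l : ℕ} (hp : 2 ≤ p) (hK : 1 ≤ K) (hl : 1 ≤ l) {μ : Measure UnitAddCircle}
    [IsProbabilityMeasure μ] (hμ : MeasurePreserving (fun x : UnitAddCircle => p • x) μ μ)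
    {B : Set UnitAddCircle} (hB : MeasurableSet B)
    (hstar : ∀ u v : UnitAddCircle, u ∉ B → v ∉ B →
      ‖p ^ l • (u - v)‖ < 1 / (p : ℝ) ^ K → ‖p ^ (l - 1) • (u - v)‖ < 1 / (p : ℝ) ^ (K + 1)) :
    entD μ (p ^ (K + 1)) ≤
      entD μ (p ^ K) + ((1 + Real.log p) * μ.real B + Real.negMulLog (μ.real B)) := by
  have hp0 : (0 : ℝ) < p := by positivity
  have key : ∀ ε : ℝ, 0 < ε → ε ≤ 1 → μ.real B ≤ ε → entD μ (p ^ (K + 1)) ≤
      entD μ (p ^ K) + ((1 + Real.log p) * ε + Real.negMulLog ε) := by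
    intro ε hε hε1 hBε
    have h := ent_step hp hK hl hμ hB hstar hε hε1 hBε
    rw [Real.log_div hp0.ne' hε.ne'] at h
    rw [Real.negMulLog]
    calc entD μ (p ^ (K + 1)) ≤ entD μ (p ^ K) + ε * (1 + (Real.log p - Real.log ε)) := h
      _ = _ := by ring
  rcases (measureReal_nonneg (μ := μ) (s := B)).eq_or_lt with h0 | h0
  · rw [← h0]
    have hlim : Tendsto (fun ε : ℝ => entD μ (p ^ K) + ((1 + Real.log p) * ε + Real.negMulLog ε))
        (𝓝[>] 0) (𝓝 (entD μ (p ^ K) + ((1 + Real.log p) * 0 + Real.negMulLog 0))) := by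
      have hc : Continuous (fun ε : ℝ => entD μ (p ^ K) + ((1 + Real.log p) * ε + Real.negMulLog ε)) := by
        have := Real.continuous_negMulLog
        fun_prop
      exact (hc.tendsto 0).mono_left nhdsWithin_le_nhds
    refine ge_of_tendsto hlim ?_
    have h1 : ∀ᶠ ε : ℝ in 𝓝[>] 0, ε < 1 :=
      nhdsWithin_le_nhds (Iio_mem_nhds one_pos)
    filter_upwards [self_mem_nhdsWithin, h1] with ε hε hε1
    exact key ε hε hε1.le (by rw [← h0]; exact (mem_Ioi.1 hε).le)
  · exact key _ h0 measureReal_le_one le_rfl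

theorem sum_div_le (f : ℕ → ℝ) (hf : ∀ n, 0 ≤ f n) {R K0 N : ℕ} (hR : 0 < R) (hK0 : R ≤ K0) :
    ∑ K ∈ Finset.Ico K0 N, f (K / R) ≤ R * ∑ M ∈ Finset.Icc 1 N, f M := by
  have hmaps : ∀ K ∈ Finset.Ico K0 N, K / R ∈ Finset.Icc 1 N := by
    intro K hK
    rw [Finset.mem_Ico] at hK
    rw [Finset.mem_Icc]
    refine ⟨(Nat.one_le_div_iff hR).2 (by omega), (Nat.div_le_self _ _).trans hK.2.le⟩
  rw [← Finset.sum_fiberwise_of_maps_to hmaps, Finset.mul_sum]
  refine Finset.sum_le_sum fun M _ => ?_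
  have h1 : ∀ K ∈ (Finset.Ico K0 N).filter (fun K => K / R = M), f (K / R) = f M := by
    intro K hK
    rw [(Finset.mem_filter.1 hK).2]
  rw [Finset.sum_congr rfl h1, Finset.sum_const, nsmul_eq_mul]
  refine mul_le_mul_of_nonneg_right ?_ (hf M)
  have h2 : (Finset.Ico K0 N).filter (fun K => K / R = M) ⊆ Finset.Ico (M * R) (M * R + R) := by
    intro K hK
    have h3 := (Finset.mem_filter.1 hK).2
    rw [Finset.mem_Ico]
    have h4 := Nat.div_add_mod K R
    have h5 := Nat.mod_lt K hR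
    rw [h3, mul_comm] at h4
    omega
  have h3 := Finset.card_le_card h2
  rw [Nat.card_Ico, Nat.add_sub_cancel_left] at h3
  exact_mod_cast h3

theorem sum_dig_eq_one {D : ℕ} (hD : 0 < D) (μ : Measure UnitAddCircle) [IsProbabilityMeasure μ] :
    ∑ a ∈ Finset.range D, μ.real {x : UnitAddCircle | dig D x = a} = 1 := by
  rw [← measureReal_biUnion_finset]
  · have : (⋃ b ∈ Finset.range D, {x : UnitAddCircle | dig D x = b}) = univ := by
      ext u
      simp only [Finset.mem_range, mem_iUnion, mem_ofPred_eq, exists_prop, mem_univ, iff_true]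
      exact ⟨dig D u, dig_lt hD u, rfl⟩
    rw [this, probReal_univ]
  · intro d _ d' _ hdd
    rw [Function.onFun, Set.disjoint_left]
    intro u h1 h2
    exact hdd (h1.symm.trans h2)
  · intro d _; exact measurableSet_eq_fun (measurable_dig D) measurable_const

theorem entD_le {D : ℕ} (hD : 0 < D) (μ : Measure UnitAddCircle) [IsProbabilityMeasure μ] :
    entD μ D ≤ 1 + Real.log D := by
  have h := fano_fiber (p := D) (fun a => μ.real {x : UnitAddCircle | dig D x = a})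
    (fun _ => measureReal_nonneg) hD one_pos
  rw [sum_dig_eq_one hD μ] at h
  rw [entD]
  refine h.trans ?_
  have h1 : Real.negMulLog 1 = 0 := Real.negMulLog_one
  rw [h1, zero_add, mul_one, div_one]
  have h2 : 0 ≤ Real.log D := Real.log_natCast_nonneg D
  have h3 : 0 ≤ μ.real {x : UnitAddCircle | dig D x = 0} := measureReal_nonneg
  nlinarith

theorem entD_nonneg {D : ℕ} (μ : Measure UnitAddCircle) [IsProbabilityMeasure μ] :
    0 ≤ entD μ D :=
  Finset.sum_nonneg fun a _ => Real.negMulLog_nonneg measureReal_nonneg measureReal_le_one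

theorem measurable_avg (q d : ℕ) (k : ℤ) (M : ℕ) : Measurable (avg q d k M) := by
  unfold avg
  have : ∀ j, Measurable (fun x : UnitAddCircle => (fourier k (q ^ (d * j) • x) : ℂ)) := by
    intro j
    have h1 : Continuous (fun x : UnitAddCircle => (fourier k (q ^ (d * j) • x) : ℂ)) := by
      fun_prop
    exact h1.measurable
  exact (Finset.measurable_sum _ fun j _ => this j).div_const _

/-- **Entropy and concentration.** -/
theorem entropy_le {p q l d : ℕ} {k : ℤ} (hp : 2 ≤ p) (hq : 2 ≤ q) (hk : k ≠ 0)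
    (hkl : k.natAbs < 2 ^ l) (hd1 : 1 ≤ d) (hd : p ^ (l + 1) ∣ q ^ d - 1) {δ : ℝ} (hδ : 0 < δ) :
    ∃ C : ℝ, 0 < C ∧ ∀ (μ : Measure UnitAddCircle) [IsProbabilityMeasure μ],
      MeasurePreserving (fun x : UnitAddCircle => p • x) μ μ →
      ∀ z : ℕ → ℂ, (∀ M, δ ≤ ‖z M‖) → ∀ N : ℕ,
      entD μ (p ^ N) ≤ C * (1 + ∑ M ∈ Finset.Icc 1 N,
        (μ.real {x | δ / (p : ℝ) ^ (l + 1) ≤ ‖avg q d k M x - z M‖} +
          Real.negMulLog (μ.real {x | δ / (p : ℝ) ^ (l + 1) ≤ ‖avg q d k M x - z M‖}))) := by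
  have hp0 : (0 : ℝ) < p := by positivity
  have hp1 : (1 : ℝ) < p := by exact_mod_cast (by omega : 1 < p)
  have hlogp : 0 ≤ Real.log p := Real.log_natCast_nonneg p
  set R : ℕ := 2 * d * q with hR
  have hRpos : 0 < R := by positivity
  -- the threshold
  obtain ⟨K1, hK1⟩ : ∃ K1 : ℕ, ∀ K, K1 ≤ K → (Real.pi * |(k : ℝ)|) ^ 2 ≤ δ ^ 2 * (p : ℝ) ^ K := by
    have h1 : Tendsto (fun K : ℕ => δ ^ 2 * (p : ℝ) ^ K) atTop atTop :=
      (tendsto_pow_atTop_atTop_of_one_lt hp1).const_mul_atTop (by positivity)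
    obtain ⟨K1, hK1⟩ := eventually_atTop.1 (h1.eventually_ge_atTop ((Real.pi * |(k : ℝ)|) ^ 2))
    exact ⟨K1, hK1⟩
  set K0 : ℕ := K1 + R with hK0
  refine ⟨(1 + K0 * Real.log p) + (1 + Real.log p) * R, by positivity, ?_⟩
  intro μ _ hμ z hz N
  set e : ℕ → ℝ := fun M => μ.real {x | δ / (p : ℝ) ^ (l + 1) ≤ ‖avg q d k M x - z M‖} with he
  have he0 : ∀ M, 0 ≤ e M := fun M => measureReal_nonneg
  have he1 : ∀ M, e M ≤ 1 := fun M => measureReal_le_one
  set φ : ℕ → ℝ := fun M => e M + Real.negMulLog (e M) with hφ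
  have hφ0 : ∀ M, 0 ≤ φ M := fun M => add_nonneg (he0 M) (Real.negMulLog_nonneg (he0 M) (he1 M))
  have hS0 : 0 ≤ ∑ M ∈ Finset.Icc 1 N, φ M := Finset.sum_nonneg fun M _ => hφ0 M
  -- small scales
  have hsmall : ∀ n, n ≤ K0 → entD μ (p ^ n) ≤ 1 + K0 * Real.log p := by
    intro n hn
    refine (entD_le (by positivity) μ).trans ?_
    rw [Nat.cast_pow, Real.log_pow]
    have : (n : ℝ) ≤ K0 := by exact_mod_cast hn
    gcongr
  -- one step
  have hstep : ∀ K, K0 ≤ K → entD μ (p ^ (K + 1)) ≤ entD μ (p ^ K) + (1 + Real.log p) * φ (K / R) := by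
    intro K hK
    set M := K / R with hM
    have hMK : R * M ≤ K := Nat.mul_div_le K R
    have hpow : (q : ℝ) ^ (d * M) * (q : ℝ) ^ (d * M) ≤ (p : ℝ) ^ K := by
      have h1 : q ^ (d * M) * q ^ (d * M) ≤ p ^ K := by
        calc q ^ (d * M) * q ^ (d * M) = q ^ (2 * d * M) := by rw [← pow_add]; congr 1; ring
          _ ≤ (2 ^ q) ^ (2 * d * M) := Nat.pow_le_pow_left (Nat.lt_two_pow_self).le _
          _ = 2 ^ (R * M) := by rw [← pow_mul]; congr 1; rw [hR]; ring
          _ ≤ 2 ^ K := Nat.pow_le_pow_right (by norm_num) hMK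
          _ ≤ p ^ K := Nat.pow_le_pow_left hp _
      exact_mod_cast h1
    have hMbound : Real.pi * |(k : ℝ)| * (q : ℝ) ^ (d * M) ≤ δ * (p : ℝ) ^ K := by
      have h2 : (Real.pi * |(k : ℝ)| * (q : ℝ) ^ (d * M)) ^ 2 ≤ (δ * (p : ℝ) ^ K) ^ 2 := by
        calc (Real.pi * |(k : ℝ)| * (q : ℝ) ^ (d * M)) ^ 2
            = (Real.pi * |(k : ℝ)|) ^ 2 * ((q : ℝ) ^ (d * M) * (q : ℝ) ^ (d * M)) := by ring
          _ ≤ (δ ^ 2 * (p : ℝ) ^ K) * (p : ℝ) ^ K := by
              gcongr
              exact hK1 K (by omega)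
          _ = (δ * (p : ℝ) ^ K) ^ 2 := by ring
      exact (pow_le_pow_iff_left₀ (by positivity) (by positivity) (by norm_num)).1 h2
    set B : Set UnitAddCircle := {x | δ / (p : ℝ) ^ (l + 1) ≤ ‖avg q d k M x - z M‖} with hB
    have hBm : MeasurableSet B :=
      measurableSet_le measurable_const ((measurable_avg q d k M).sub_const _).norm
    have hstar : ∀ u v : UnitAddCircle, u ∉ B → v ∉ B →
        ‖p ^ (l + 1) • (u - v)‖ < 1 / (p : ℝ) ^ K →
        ‖p ^ (l + 1 - 1) • (u - v)‖ < 1 / (p : ℝ) ^ (K + 1) := by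
      intro u v hu hv h
      rw [hB, mem_ofPred_eq, not_le] at hu hv
      exact star hp (by omega) hk hkl hd hδ (hz M) hMbound hu hv h
    have h3 := ent_step' hp (by omega : 1 ≤ K) (by omega : 1 ≤ l + 1) hμ hBm hstar
    refine h3.trans ?_
    have h4 : μ.real B = e M := rfl
    rw [h4, hφ]
    have h5 : 0 ≤ Real.negMulLog (e M) := Real.negMulLog_nonneg (he0 M) (he1 M)
    nlinarith
  -- summation
  rcases le_total N K0 with hN | hN
  · refine (hsmall N hN).trans ?_
    have : 0 ≤ (1 + Real.log p) * (R : ℝ) := by positivity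
    have h6 : 0 ≤ 1 + (K0 : ℝ) * Real.log p := by positivity
    nlinarith
  · have hind : ∀ n, K0 ≤ n → entD μ (p ^ n) ≤ (1 + K0 * Real.log p) +
        (1 + Real.log p) * ∑ K ∈ Finset.Ico K0 n, φ (K / R) := by
      intro n hn
      induction n, hn using Nat.le_induction with
      | base => simpa using hsmall K0 le_rfl
      | succ n hn ih =>
        rw [Finset.sum_Ico_succ_top hn, mul_add]
        linarith [hstep n hn]
    have h7 := sum_div_le φ hφ0 (R := R) (K0 := K0) (N := N) hRpos (by omega)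
    calc entD μ (p ^ N) ≤ (1 + K0 * Real.log p) +
        (1 + Real.log p) * ∑ K ∈ Finset.Ico K0 N, φ (K / R) := hind N hN
      _ ≤ (1 + K0 * Real.log p) + (1 + Real.log p) * (R * ∑ M ∈ Finset.Icc 1 N, φ M) := by
          gcongr
      _ ≤ ((1 + K0 * Real.log p) + (1 + Real.log p) * R) * (1 + ∑ M ∈ Finset.Icc 1 N, φ M) := by
          have h8 : 0 ≤ (1 + Real.log p) * (R : ℝ) := by positivity
          have h6 : 0 ≤ 1 + (K0 : ℝ) * Real.log p := by positivity
          nlinarith [mul_nonneg h6 hS0]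

end Pool.Agent.H.MP_96e181_an.helper43
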